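import Pool.Agent.Helper58.QD.StL

/-!
# Project QD, module PIG: pigeonhole for the scales
-/

set_option autoImplicit false

open Set Filter Topology MeasureTheory
open scoped ContDiff ENNReal

noncomputable section

namespace Helper58.QD

theorem qf_mul {M : ℕ} (C : ℝ) (S : Fin M → Fin M → ℝ) (c : Fin M → ℝ) :
    qf (fun k l => C * S k l) c = C * qf S c := by
  unfold qf
  rw [Finset.mul_sum]
  refine Finset.sum_congr rfl fun i _ => ?_
  rw [Finset.mul_sum]
  refine Finset.sum_congr rfl fun j _ => ?_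
  ring

theorem det_mul {M : ℕ} (C : ℝ) (S : Fin M → Fin M → ℝ) :
    (Matrix.of (fun k l => C * S k l)).det = C ^ M * (Matrix.of S).det := by
  have h : Matrix.of (fun k l => C * S k l) = C • Matrix.of S := by
    ext k l
    simp
  rw [h, Matrix.det_smul]
  simp

theorem det_le_mul (hDet : SDet) {M : ℕ} {C : ℝ} {S S' : Fin M → Fin M → ℝ} (h : Sy S)
    (h' : Sy S') (h0 : ∀ c, 0 ≤ qf S c) (hle : ∀ c, qf S c ≤ C * qf S' c) :
    (Matrix.of S).det ≤ C ^ M * (Matrix.of S').det := by
  rw [← det_mul]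
  refine (hDet M).1 S _ h ?_ h0 ?_
  · intro i j
    simp only [h' i j]
  · intro c
    rw [qf_mul]
    exact hle c

theorem hPig (hDet : SDet) : SPig := by
  intro M C hM hC A D H i0 hsym hnn h1 h2 h3 h4 i1
  have hCpos : 0 < C := by linarith
  have hA1 : ∀ i, i0 ≤ i → 1 ≤ (Matrix.of (A i)).det :=
    fun i hi => (hDet M).2.2 (A i) (hsym i).1 (h1 i hi)
  have hDA : ∀ i, i0 ≤ i → (Matrix.of (D i)).det ≤ C ^ M * (Matrix.of (A i)).det :=
    fun i hi => det_le_mul hDet (hsym i).2.1 (hsym i).1 (fun c => (hnn i c).2.1) (h2 i hi)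
  have hHD : ∀ i, i0 ≤ i → (Matrix.of (H i)).det ≤ C ^ M * (Matrix.of (D i)).det :=
    fun i hi => det_le_mul hDet (hsym i).2.2 (hsym i).2.1 (fun c => (hnn i c).2.2) (h3 i hi)
  obtain ⟨i, hi0, hi1, hi⟩ : ∃ i, i0 ≤ i ∧ i1 ≤ i ∧
      (Matrix.of (D i)).det < (2 * C) ^ M * (Matrix.of (A (i + 1))).det := by
    by_contra hcon
    push Not at hcon
    have key : ∀ i, max i0 i1 ≤ i →
        2 * (Matrix.of (A (i + 1))).det ≤ (Matrix.of (A i)).det := by
      intro i hi
      have a0 := le_trans (le_max_left _ _) hi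
      have a1 := le_trans (le_max_right _ _) hi
      have e1 := (hcon i a0 a1).trans (hDA i a0)
      rw [mul_pow, mul_comm (2 ^ M) (C ^ M), mul_assoc] at e1
      have e2 := le_of_mul_le_mul_left e1 (by positivity)
      have e3 : (2 : ℝ) ≤ 2 ^ M := by
        calc (2 : ℝ) = 2 ^ 1 := by norm_num
          _ ≤ 2 ^ M := pow_le_pow_right₀ (by norm_num) hM
      have e4 := hA1 (i + 1) (by omega)
      nlinarith
    have key2 : ∀ k, 2 ^ k * (Matrix.of (A (max i0 i1 + k))).det ≤
        (Matrix.of (A (max i0 i1))).det := by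
      intro k
      induction k with
      | zero => simp
      | succ k ih =>
        have e1 := key (max i0 i1 + k) (by omega)
        have e2 : (0 : ℝ) < 2 ^ k := by positivity
        calc 2 ^ (k + 1) * (Matrix.of (A (max i0 i1 + (k + 1)))).det
            = 2 ^ k * (2 * (Matrix.of (A (max i0 i1 + k + 1))).det) := by
              rw [pow_succ, ← add_assoc]; ring
          _ ≤ 2 ^ k * (Matrix.of (A (max i0 i1 + k))).det :=
              mul_le_mul_of_nonneg_left e1 e2.le
          _ ≤ _ := ih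
    obtain ⟨k, hk⟩ := pow_unbounded_of_one_lt (Matrix.of (A (max i0 i1))).det
      (by norm_num : (1 : ℝ) < 2)
    have e1 := key2 k
    have e2 := hA1 (max i0 i1 + k) (le_trans (le_max_left _ _) (Nat.le_add_right _ _))
    have e3 : (0 : ℝ) < 2 ^ k := by positivity
    nlinarith
  refine ⟨i, hi0, hi1, ?_⟩
  refine (hDet M).2.1 (A (i + 1)) (H i) (2 * C ^ 2) hM (by positivity) (hsym _).1 (hsym _).2.2
    (fun c => (hnn _ c).1) ?_ ?_
  · intro c hc
    have e1 := h1 (i + 1) (by omega) c
    have e2 := h4 i hi0 c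
    have e3 : 0 < ∑ k, c k ^ 2 := by
      obtain ⟨k, hk⟩ := Function.ne_iff.1 hc
      exact Finset.sum_pos' (fun _ _ => sq_nonneg _) ⟨k, Finset.mem_univ _, sq_pos_of_ne_zero hk⟩
    linarith
  · have e1 := hHD i hi0
    have e2 : C ^ M * (Matrix.of (D i)).det ≤
        C ^ M * ((2 * C) ^ M * (Matrix.of (A (i + 1))).det) :=
      mul_le_mul_of_nonneg_left hi.le (by positivity)
    refine (e1.trans e2).trans (le_of_eq ?_)
    rw [← mul_assoc, ← mul_pow]
    congr 2
    ring

end Helper58.QD
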