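import Pool.Agent.Helper58.QD.Main
import Pool.Agent.Helper1.QD.M_Glb
import Pool.Agent.Helper1.QD.M_Mve
import Pool.Agent.Helper10.QD.M_Ptb
import Pool.Agent.Helper10.QD.M_Sup
import Pool.Agent.Helper15.QD.M_Moa
import Pool.Agent.Helper15.QD.M_Spp
import Pool.Agent.Helper16.QD.M_Pul
import Pool.Agent.Helper16.QD.M_Qsx
import Pool.Agent.Helper2.QD.M_Itm
import Pool.Agent.Helper22.QD.M_Cmi
import Pool.Agent.Helper22.QD.M_Hmt
import Pool.Agent.Helper25.QD.M_Pol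
import Pool.Agent.Helper29.QD.M_Cba
import Pool.Agent.Helper29.QD.M_Pbn
import Pool.Agent.Helper32.QD.M_Grw
import Pool.Agent.Helper32.QD.M_Nnk
import Pool.Agent.Helper34.QD.M_Stp
import Pool.Agent.Helper36.QD.M_Avj
import Pool.Agent.Helper37.QD.M_Bgv
import Pool.Agent.Helper47.QD.M_Keb
import Pool.Agent.Helper47.QD.M_Puc
import Pool.Agent.Helper47.QD.M_Rkb
import Pool.Agent.Helper47.QD.M_Trc
import Pool.Agent.Helper5.QD.M_Plb
import Pool.Agent.Helper51.QD.M_Det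
import Pool.Agent.Helper58.QD.M_Pig
import Pool.Agent.Helper6.QD.M_Bal
import Pool.Agent.Helper60.QD.M_Smd
import Pool.Agent.Helper62.QD.M_Bop
import Pool.Agent.Helper62.QD.M_Keg
import Pool.Agent.Helper66.QD.M_Oex
import Pool.Agent.Helper66.QD.M_Quf
import Pool.Agent.Helper67.QD.M_Cac
import Pool.Agent.Helper67.QD.M_Hfl
import Pool.Agent.Helper67.QD.M_Min
import Pool.Agent.Helper69.QD.M_Sgb
import Pool.Agent.Helper69.QD.M_Wbg
import Pool.Agent.Helper7.QD.M_Lbd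
import Pool.Agent.Helper7.QD.M_Nsh
import Pool.Agent.Helper7.QD.M_Wlb
import Pool.Agent.Helper71.QD.M_Sue
import Pool.Agent.Helper79.QD.M_Mop
import Pool.Agent.Helper81.QD.M_Mtg
import Pool.Agent.Helper83.QD.M_Oeq
import Pool.Agent.Helper86.QD.M_Cov
import Pool.Agent.Helper86.QD.M_Mvp
import Pool.Agent.Helper90.QD.M_Col
import Pool.Agent.Helper92.QD.M_Bol
import Pool.Agent.Helper92.QD.M_Nna
import Pool.Agent.Helper98.QD.M_Grd
import Pool.Agent.Helper98.QD.M_Wte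
import Pool.Agent.Helper99.QD.M_Rnk

/-!
# Project QD: all modules together
-/

set_option autoImplicit false

noncomputable section

namespace Helper58.QD

open Helper62.LH Helper62.DSH

theorem pBal : SBal := _root_.Pool.Agent.Helper6.QD.hBal Helper62.LH.pMet Helper62.LH.pDlc Helper62.LH.pHr Helper62.LH.pDlv
theorem pBgv : SBgv := _root_.Pool.Agent.Helper37.QD.hBgv Helper62.LH.pMet Helper62.LH.pDlc Helper62.LH.pMg Helper62.LH.pNc Helper62.LH.pVol pBal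
theorem pSgb : SSgb := _root_.Pool.Agent.Helper69.QD.hSgb Helper62.LH.pMet Helper62.LH.pUsc Helper62.LH.pSga pBal
theorem pGrd : SGrd := _root_.Pool.Agent.Helper98.QD.hGrd Helper62.LH.pMg Helper62.LH.pRgc Helper62.LH.pIna
theorem pAvj : SAvj := _root_.Pool.Agent.Helper36.QD.hAvj Helper62.LH.pMet Helper62.LH.pDlc Helper62.LH.pUsc Helper62.LH.pSga Helper62.LH.pUt pBal pBgv pGrd
theorem pNsh : SNsh := _root_.Pool.Agent.Helper7.QD.hNsh Helper62.LH.pMet Helper62.LH.pUt pBal pBgv pAvj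
theorem pSmd : SSmd := _root_.Pool.Agent.Helper60.QD.hSmd Helper62.LH.pMet Helper62.LH.pDlc Helper62.LH.pDel Helper62.LH.pSma Helper62.LH.pSmb
theorem pCba : SCba := _root_.Pool.Agent.Helper29.QD.hCba Helper62.LH.pMet Helper62.LH.pDlc Helper62.LH.pHr Helper62.LH.pIna pSmd
theorem pGrw : SGrw := _root_.Pool.Agent.Helper32.QD.hGrw
theorem pCov : SCov := _root_.Pool.Agent.Helper86.QD.hCov Helper62.LH.pMet pBal pBgv pGrw
theorem pPtb : SPtb := _root_.Pool.Agent.Helper10.QD.hPtb Helper62.LH.pChr Helper62.LH.pMg Helper62.LH.pRgc Helper62.DSH.pNrm Helper62.DSH.pRho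
theorem pRkb : SRkb := _root_.Pool.Agent.Helper47.QD.hRkb Helper62.LH.pMet Helper62.LH.pHr Helper62.LH.pUsc Helper62.LH.pDlv Helper62.DSH.pNrm Helper62.DSH.pDer pBal pSgb pPtb
theorem pBol : SBol := _root_.Pool.Agent.Helper92.QD.hBol Helper62.LH.pChr Helper62.DSH.pSqd Helper62.DSH.pDer Helper62.DSH.pDvg Helper62.DSH.pPtw
theorem pBop : SBop := _root_.Pool.Agent.Helper62.QD.hBop Helper62.LH.pChr Helper62.DSH.pDer Helper62.DSH.pLbz pBol
theorem pSup : SSup := _root_.Pool.Agent.Helper10.QD.hSup Helper62.LH.pChr Helper62.LH.pTr Helper62.LH.pDlv Helper62.DSH.pNrm Helper62.DSH.pDer Helper62.DSH.pLbz pBop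
theorem pSue : SSue := _root_.Pool.Agent.Helper71.QD.hSue Helper62.LH.pChr Helper62.LH.pTr Helper62.LH.pDlv Helper62.DSH.pNrm Helper62.DSH.pDer Helper62.DSH.pLbz Helper62.DSH.pAdj pBol pBop
theorem pCmi : SCmi := _root_.Pool.Agent.Helper22.QD.hCmi Helper62.LH.pIna Helper62.LH.pUt Helper62.LH.pDlv pBal pNsh
theorem pItm : SItm := _root_.Pool.Agent.Helper2.QD.hItm Helper62.LH.pDlv pBal
theorem pMvp : SMvp := _root_.Pool.Agent.Helper86.QD.hMvp Helper62.LH.pMet Helper62.LH.pDlv Helper62.DSH.pNrm pBal pCba pCmi pItm pSup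
theorem pMve : SMve := _root_.Pool.Agent.Helper1.QD.hMve Helper62.LH.pDlv Helper62.DSH.pNrm pBal pCba pCmi pItm pSue
theorem pQuf : SQuf := _root_.Pool.Agent.Helper66.QD.hQuf
theorem pDet : SDet := _root_.Pool.Agent.Helper51.QD.hDet
theorem pPig : SPig := _root_.Helper58.QD.hPig pDet
theorem pTrc : STrc := _root_.Pool.Agent.Helper47.QD.hTrc
theorem pNna : SNna := _root_.Pool.Agent.Helper92.QD.hNna Helper62.LH.pOnb Helper62.LH.pCfr
theorem pNnk : SNnk := _root_.Pool.Agent.Helper32.QD.hNnk Helper62.LH.pChe Helper62.LH.pShp Helper62.LH.pOnb Helper62.LH.pCfr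
theorem pPbn : SPbn := _root_.Pool.Agent.Helper29.QD.hPbn Helper62.LH.pOnb Helper62.LH.pCfr
theorem pHmt : SHmt := _root_.Pool.Agent.Helper22.QD.hHmt
theorem pStp : SStp := _root_.Pool.Agent.Helper34.QD.hStp Helper62.LH.pChr Helper62.LH.pShp Helper62.LH.pCmp
theorem pGlb : SGlb := _root_.Pool.Agent.Helper1.QD.hGlb Helper62.LH.pMet Helper62.LH.pDlc Helper62.LH.pMg Helper62.LH.pRgc Helper62.LH.pIna
theorem pPul : SPul := _root_.Pool.Agent.Helper16.QD.hPul pNna pPbn pHmt pStp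
theorem pPuc : SPuc := _root_.Pool.Agent.Helper47.QD.hPuc Helper62.LH.pCfr Helper62.DSH.pFmk Helper62.DSH.pBrc pNna pPul
theorem pPlb : SPlb := _root_.Helper5.QD.hPlb pHmt
theorem pMoa : SMoa := _root_.Pool.Agent.Helper15.QD.hMoa pPlb
theorem pMop : SMop := _root_.Pool.Agent.Helper79.QD.hMop Helper62.LH.pSma Helper62.LH.pDlv Helper62.LH.pCfr Helper62.DSH.pNrm Helper62.DSH.pFmk Helper62.DSH.pBrc pNna pNnk pMoa
theorem pWte : SWte := _root_.Pool.Agent.Helper98.QD.hWte Helper62.LH.pCvx Helper62.LH.pDlv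
theorem pMin : SMin := _root_.Pool.Agent.Helper67.QD.hMin pGrw Helper62.LH.pDlv Helper62.DSH.pNrm Helper62.DSH.pDer Helper62.DSH.pHpj Helper62.DSH.pFrj Helper62.DSH.pDdz pWte
theorem pSpp : SSpp := _root_.Pool.Agent.Helper15.QD.hSpp Helper62.LH.pMet Helper62.DSH.pNrm Helper62.DSH.pDdz pBal pBgv pGrw pMvp
theorem pCol : SCol := _root_.Pool.Agent.Helper90.QD.hCol Helper62.LH.pMet Helper62.LH.pDlv Helper62.DSH.pNrm pBal pBgv pGrw pMve pMin pMop
theorem pOex : SOex := _root_.Pool.Agent.Helper66.QD.hOex Helper62.LH.pSm Helper62.LH.pDlv Helper62.DSH.pNrm pBal pBgv pGrw pGlb pPuc pSpp pCol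
theorem pHfl : SHfl := _root_.Pool.Agent.Helper67.QD.hHfl Helper62.DSH.pNrm Helper62.DSH.pDer
theorem pQsx : SQsx := _root_.Pool.Agent.Helper16.QD.hQsx Helper62.LH.pDlv Helper62.DSH.pNrm Helper62.DSH.pDer pGrw pQuf
theorem pLbd : SLbd := _root_.Pool.Agent.Helper7.QD.hLbd Helper62.LH.pDlv Helper62.DSH.pNrm Helper62.DSH.pPaj pGrw pHfl
theorem pCac : SCac := _root_.Pool.Agent.Helper67.QD.hCac Helper62.LH.pChr Helper62.LH.pDlv Helper62.DSH.pNrm Helper62.DSH.pDer Helper62.DSH.pLbz pBol pGrw pMin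
theorem pRnk : SRnk := _root_.Pool.Agent.Helper99.QD.hRnk Helper62.LH.pMet Helper62.LH.pDlv Helper62.DSH.pNrm Helper62.DSH.pDer pBal pGrw pCov pRkb
theorem pOeq : SOeq := _root_.Pool.Agent.Helper83.QD.hOeq Helper62.LH.pDlv Helper62.DSH.pNrm pGrw pHfl pLbd pOex
theorem pKeb : SKeb := _root_.Pool.Agent.Helper47.QD.hKeb Helper62.LH.pDlv Helper62.DSH.pNrm Helper62.DSH.pDer pGrw pHfl pCac pRnk pTrc
theorem pKeg : SKeg := _root_.Pool.Agent.Helper62.QD.hKeg Helper62.LH.pDlv pGrw pQsx pLbd pPig pOeq pKeb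
theorem pMtg : SMtg := _root_.Pool.Agent.Helper81.QD.hMtg Helper62.LH.pMet Helper62.LH.pDlv Helper62.LH.pBus Helper62.DSH.pNrm pSmd pKeg
theorem pPol : SPol := _root_.Pool.Agent.Helper25.QD.hPol Helper62.LH.pChr Helper62.LH.pCur
theorem pWlb : SWlb := _root_.Pool.Agent.Helper7.QD.hWlb Helper62.DSH.pRho Helper62.DSH.pNrm
theorem pWbg : SWbg := _root_.Pool.Agent.Helper69.QD.hWbg Helper62.LH.pCfr

end Helper58.QD
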