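import Pool.Agent.Helper62.DSH.StB

/-!
# Project QD (MP_087a81_gt, quadratic curvature decay): definitions

THEOREM QD. Let `g` be a complete metric of nonnegative sectional curvature on `ℝⁿ` whose Weitzenboeck terms `W_j`, `W_{j+1}`
satisfy `W ≥ - A/(1+r²)`, `r` the distance from the origin (for example `0 ≤ sec ≤ A/(1+r²)`). Then the spaces of `L²` harmonic forms
of degree `j + 1` and `n - j - 1` are finite dimensional.

The libraries `Pool/Agent/Helper62/LH` (geometry) and `Pool/Agent/Helper62/DSH` (forms in an orthonormal frame) are used: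
`E n`, `Bl n`, `Bm n`, `IsMet`, `IsChr`, `Cpl`, `Sec`, `Frm`, `Tn`, `q2`, `dF`, `dlF`, `NF`, `Wz`, `Rc`, `wt`, `vol`, `mg`, `dg`, `nr`, `ip`, ...
All statements `StXxx` (project LH) and `TXxx` (project DSH) are proved theorems; they may be used as hypotheses of the modules.
-/

set_option autoImplicit false

open Set Filter Topology MeasureTheory
open Helper62.LH Helper62.DSH
open scoped ContDiff ENNReal

noncomputable section

namespace Helper58.QD

/-- open geodesic ball -/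
def Ba {n : ℕ} (g : E n → Bl n) (x : E n) (r : ℝ) : Set (E n) := {y | dg g x y < r}

/-- closed annulus of a function -/
def An {n : ℕ} (β : E n → ℝ) (s t : ℝ) : Set (E n) := {x | s ≤ β x ∧ β x ≤ t}

/-- volume of a geodesic ball -/
def vb {n : ℕ} (g : E n → Bl n) (x : E n) (r : ℝ) : ℝ := (mg g (Ba g x r)).toReal

/-- squared norm of the gradient -/
def gs {n : ℕ} (g : E n → Bl n) (z : E n → ℝ) (x : E n) : ℝ := ip g x (fderiv ℝ z x) (fderiv ℝ z x)

/-- smooth approximation of `b` -/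
structure Lvl {n : ℕ} (g : E n → Bl n) (b β : E n → ℝ) : Prop where
  smooth : ContDiff ℝ ∞ β
  near : ∀ x, |β x - b x| ≤ 1
  grad : ∀ x v, |fderiv ℝ β x v| ≤ 2 * nr g x v

/-- lower bound `- lam` for the Weitzenboeck form of degree `m + 1` on the set `S` -/
def WLo {n : ℕ} (g : E n → Bl n) (Γ : E n → Bm n) (F : Fin n → E n → E n) (m : ℕ) (S : Set (E n))
    (lam : ℝ) : Prop :=
  ∀ x ∈ S, ∀ t : Tn n (m + 1), Altn t → -(lam * q2 t) ≤ Wz (Rc g Γ F x) t

/-- truncation: `T s / (T + s)` -/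
def tau (T s : ℝ) : ℝ := T * s / (T + s)

/-- the energy inequality of a subsolution `w > 0` of `Δ w ≥ |∇w|²/(2w) - 2 lam w`, tested with `χ² (tau T w)^p`, with error `e` -/
def SubI {n : ℕ} (g : E n → Bl n) (lam : ℝ) (w : E n → ℝ) (T : ℝ) (p : ℕ) (χ : E n → ℝ) (e : ℝ) :
    Prop :=
  (1 / 4) * (∫ x, χ x ^ 2 * tau T (w x) ^ p * (gs g w x / w x) * vol g x) +
    (1 / 2) * (∫ x, χ x ^ 2 * (p * tau T (w x) ^ (p - 1) * (T / (T + w x)) ^ 2) * gs g w x *
      vol g x) ≤
    (∫ x, |χ x| * tau T (w x) ^ p * (√(gs g χ x) * √(gs g w x)) * vol g x) +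
      lam * (∫ x, χ x ^ 2 * tau T (w x) ^ p * w x * vol g x) + e

/-- the combined energy and Nash inequality on the balls about `x`, which implies the mean value inequality -/
def Cmb {n : ℕ} (g : E n → Bl n) (x : E n) (ρ K : ℝ) (w : E n → ℝ) : Prop :=
  ∀ (T : ℝ) (p : ℕ) (s t r : ℝ), 0 < T → 1 ≤ p → 0 < s → s < t → t ≤ ρ → 0 < r → r ≤ ρ →
    ∫ y in Ba g x s, tau T (w y) ^ (2 * p - 1) * w y * vol g y ≤
      K * r ^ 2 * p / (t - s) ^ 2 *
        (∫ y in Ba g x t, tau T (w y) ^ (2 * p - 1) * w y * vol g y) +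
      K * (ρ / r) ^ n / vb g x ρ * (∫ y in Ba g x t, tau T (w y) ^ (p - 1) * w y * vol g y) ^ 2

/-- linear combination of component families -/
def lc {n j M : ℕ} (c : Fin M → ℝ) (u : Fin M → E n → Tn n j) (x : E n) : Tn n j :=
  ∑ i, c i • u i x

/-- the minimal primitives of the forms `P i` for the weight `e^{-ψ} vol` -/
structure Mnz {n m M : ℕ} (g : E n → Bl n) (F : Fin n → E n → E n)
    (G : E n → Fin n → Fin n → Fin n → ℝ) (ψ : E n → ℝ) (P : Fin M → E n → Tn n (m + 2))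
    (u η : Fin M → E n → Tn n (m + 1)) : Prop where
  smu : ∀ i, ContDiff ℝ ∞ (u i)
  alu : ∀ i, Al (u i)
  dfu : ∀ i x, dF F G (u i) x = P i x
  inu : ∀ i, Integrable (fun x => q2 (u i x) * wt g ψ x)
  alt : ∀ i, Al (η i)
  l2 : ∀ i, L2t (η i)
  int : ∀ i, Integrable (fun x => q2 (η i x) * wt g ψ x)
  cocl : ∀ i, ∀ β : E n → Tn n m, ContDiff ℝ ∞ β → Al β → HasCompactSupport β →
    ∫ x, ipt (η i x) (dF F G β x) * wt g ψ x = 0
  app : ∀ i, ∀ κ > 0, ∃ β : E n → Tn n m, ContDiff ℝ ∞ β ∧ Al β ∧ HasCompactSupport β ∧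
    Integrable (fun x => q2 (u i x + dF F G β x - η i x) * wt g ψ x) ∧
    ∫ x, q2 (u i x + dF F G β x - η i x) * wt g ψ x ≤ κ

/-- smooth primitive -/
def Prm {n m : ℕ} (F : Fin n → E n → E n) (G : E n → Fin n → Fin n → Fin n → ℝ)
    (P : E n → Tn n (m + 1)) (u : E n → Tn n m) : Prop :=
  ContDiff ℝ ∞ u ∧ Al u ∧ ∀ x, dF F G u x = P x

/-- quadratic form of a matrix -/
def qf {M : ℕ} (S : Fin M → Fin M → ℝ) (c : Fin M → ℝ) : ℝ := ∑ i, ∑ j, c i * S i j * c j

end Helper58.QD
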