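import Pool.Agent.Helper58.QD.StS

/-!
# Project QD, part E: main estimate and curvature conditions

Statements with complete proofs in the docstrings.
-/

set_option autoImplicit false

open Set Filter Topology MeasureTheory
open Helper62.LH Helper62.DSH
open scoped ContDiff ENNReal

noncomputable section

namespace Helper58.QD

/-! ## Main estimate -/

/-- OEQ (150 lines). Outer comparison of the quadratic forms. Hypotheses: StDlv TNrm SGrw SHfl SLbd SOex.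
PROOF. `C₀, T0` from OEX, `C = 2 C₀ + 1`, `Λ = ∑ i, ∫ q2 (P i) vol`, `T1 = max T0 R1` with `R1` from LBD for `Λ`. Both sides are quadratic in `c` (`qf S (r • c) = r² qf S c`), so let `∑ c_i² = 1` (for `c = 0` both
sides are `0`). `P_c = ∑ c_i P_i` satisfies `Hf`, `∫ q2 P_c vol ≤ Λ` (HFL). Let `κ > 0`, `u0` from `QS.app` for `S`, `u` from OEX for `P_c`, `u0`: `qf S' c ≤ ∫_{An β a (4T)} q2 u vol ≤ C₀ (qf S c + κ + T² Λ) + κ`; `κ → 0`: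
`qf S' c ≤ C₀ (qf S c + T² Λ)`. By LBD with `R = T` every primitive `u` of `P_c` satisfies `Λ T² ≤ ∫_{An β (T/2) T} q2 u vol ≤ ∫_{An β a T} q2 u vol` (`a ≤ T/2`, compact sets, continuous integrand
`≥ 0`), so `Λ T² ≤ qf S c` by `QS.app`. Together `qf S' c ≤ 2 C₀ qf S c`. -/
def SOeq : Prop := ∀ (n m : ℕ) (g : E n → Bl n) (Γ : E n → Bm n) (F : Fin n → E n → E n)
  (G : E n → Fin n → Fin n → Fin n → ℝ), IsMet g → IsChr g Γ → Frm g Γ F G → Cpl g → Sec g Γ →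
  ∀ (p : E n) (b β : E n → ℝ) (κ₀ r0 : ℝ), Bus g Γ p b κ₀ r0 → Lvl g b β →
  ∀ A : ℝ, 0 ≤ A → WDec g Γ F m p A → WDec g Γ F (m + 1) p A → ∃ C : ℝ, 1 ≤ C ∧
  ∀ (M : ℕ) (P : Fin M → E n → Tn n (m + 2)), (∀ i, Hf g F G (P i)) →
  ∀ (K : Set (E n)) (δ : ℝ), IsCompact K → 0 < δ →
  (∀ c : Fin M → ℝ, ∑ i, c i ^ 2 = 1 → δ ≤ ∫ x in K, q2 (∑ i, c i • P i x) * vol g x) →
  ∃ T1 : ℝ, 1 ≤ T1 ∧ ∀ T a : ℝ, T1 ≤ T → a ≤ T / 4 → ∀ S S' : Fin M → Fin M → ℝ,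
  QS g F G β P a T S → QS g F G β P a (4 * T) S' → ∀ c, qf S' c ≤ C * qf S c

/-- KEB (250 lines). The trace estimate at one scale. Hypotheses: StDlv TNrm TDer SGrw SHfl SCac SRnk STrc.
PROOF. `C₃, R₀` from CAC; `δ₁ ∈ (0,1/16]` with `8 * 28^n * δ₁² * (3 C₃ + 1) ≤ 1/(8 C²)`; `N, R₀'` from RNK for the degree `j = m+1` and `δ₁`; `M0` a natural number `≥ 1` with `M0 > (8/3) C² (N+1)`.
Let `M ≥ M0`, `R ≥ max R₀ R₀'`, `Λ = ∑ i, ∫ q2 (P i) vol`, and suppose `∑ a, qf SA (e a) ≥ M/(2C²)`. Let `κ₁ = min (1/(2M²)) (1/R²)`, `P_a = ∑ k, e a k • P k` (`Hf`, HFL), `u0_a` from `QS.app` for `SH`, `e a`,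
`κ = 1`: `∫_{An β (R/4) (64R)} q2 u0_a vol ≤ qf SH (e a) + 1 = 2`. CAC with `κ₁`: `u_a, v_a`. By HFL `∫ q2 P_a vol ≤ |e a|² Λ`, and `Λ R² |e a|² ≤ qf SH (e a) = 1`, so
`∫_{An β (R/2) (32R)} NF v_a vol ≤ 2C₃/R² + C₃/R² + κ₁ ≤ (3C₃+1)/R²`. Let `B a b = ∑ k l, e a k * SA k l * e b l`: symmetric, `qf B x = qf SA (∑ a, x_a e_a) ≤ qf SH (∑ a, x_a e_a) = ∑ x_a²` (`SA ≤ SH`:
`An β R (16R) ⊆ An β (R/4) (64R)`, `QS.app` for `SH` and `QS.low` for `SA`), `∑ a, B a a = ∑ a, qf SA (e a) ≥ M/(2C²)`. RNK for `v`: `L`. TRC for `B`, `L`: `f : Fin M' → Fin M → ℝ`, `M' ≤ M`, and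
`M/(2C²) - N ≤ ∑ b, qf B (f b)`. For each `b`: `w_b = ∑ a, f b a • u_a` is a primitive of `∑ k, c_k • P k`, `c = ∑ a, f b a • e a` (DER), so `qf B (f b) = qf SA c ≤ ∫_{An β R (16R)} q2 w_b vol ≤
2 ∫_{An β R (16R)} q2 (∑ a, f b a • v_a) vol + 2 ∫_{An β R (16R)} q2 (∑ a, f b a • (u_a - v_a)) vol`, and the last integral is `≤ ∑ a, ∫_{An β (R/2) (32R)} q2 (u_a - v_a) vol ≤ M κ₁` (NRM (5), `∑ a, (f b a)² = 1`). Sum
over `b` with RNK: `M/(2C²) - N ≤ 8 * 28^n δ₁² R² M (3C₃+1)/R² + 2 M² κ₁ ≤ M/(8C²) + 1`. So `3M/(8C²) ≤ N + 1`, against the choice of `M0`. -/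
def SKeb : Prop := ∀ (n m : ℕ) (g : E n → Bl n) (Γ : E n → Bm n) (F : Fin n → E n → E n)
  (G : E n → Fin n → Fin n → Fin n → ℝ), IsMet g → IsChr g Γ → Frm g Γ F G → Cpl g → Sec g Γ →
  ∀ (p : E n) (b β : E n → ℝ) (κ₀ r0 : ℝ), Bus g Γ p b κ₀ r0 → Lvl g b β →
  ∀ A : ℝ, 0 ≤ A → WDec g Γ F m p A → ∀ C : ℝ, 1 ≤ C → ∃ (M0 : ℕ) (R0 : ℝ), 1 ≤ M0 ∧ 1 ≤ R0 ∧
  ∀ M, M0 ≤ M → ∀ R, R0 ≤ R → ∀ P : Fin M → E n → Tn n (m + 2), (∀ i, Hf g F G (P i)) →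
  ∀ SA SH : Fin M → Fin M → ℝ, QS g F G β P R (16 * R) SA →
  QS g F G β P (R / 4) (64 * R) SH →
  (∀ c : Fin M → ℝ, (∑ i, ∫ x, q2 (P i x) * vol g x) * R ^ 2 * ∑ i, c i ^ 2 ≤ qf SH c) →
  ∀ e : Fin M → Fin M → ℝ,
  (∀ a b, ∑ k, ∑ l, e a k * SH k l * e b l = if a = b then 1 else 0) →
    ∑ a, qf SA (e a) < M / (2 * C ^ 2)

/-- KEG (200 lines). Main estimate. Hypotheses: StDlv TNrm SGrw SQsx SLbd SPig SOeq SKeb.
PROOF. `C` from OEQ, `M0, R0` from KEB. Let `M ≥ M0` and suppose that `δ < ∫_K q2 (∑ c_i P_i) vol` for all unit vectors `c`. `T1` from OEQ, `R1` from LBD for `Λ' = 1 + ∑ i, ∫ q2 (P i) vol`. QSX: `A i, D i, H i` for the annuli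
`An β (4^i) (4^(i+2))`, `An β (4^i) (4^(i+3))`, `An β (4^i) (4^(i+4))`. `i0` with `4^i0 ≥ max T1 R1 R0`. For `i ≥ i0`: (1) for a unit vector `c` and every primitive `u`, LBD with `R = 4^(i+2)`:
`Λ' R² ≤ ∫_{An β (R/2) R} q2 u vol ≤ ∫_{An β (4^i) R} q2 u vol`, so by `QS.app` `1 ≤ Λ' R² ≤ qf (A i) c`; so `∑ c² ≤ qf (A i) c` for all `c` (homogeneity). (2) `qf (D i) ≤ C qf (A i)`: OEQ with `T = 4^(i+2)`,
`a = 4^i ≤ T/4`. (3) `qf (H i) ≤ C qf (D i)`: `T = 4^(i+3)`. (4) `qf (A (i+1)) ≤ qf (H i)`: `An β (4^(i+1)) (4^(i+3)) ⊆ An β (4^i) (4^(i+4))`, `QS.app` and `QS.low`. PIG (`1 ≤ M0 ≤ M`): `i ≥ i0` and `e` orthonormal for `H i` with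
`M/(2C²) ≤ ∑ a, qf (A (i+1)) (e a)`. KEB with `R = 4^(i+1)` (`16R = 4^(i+3)`, `R/4 = 4^i`, `64R = 4^(i+4)`; the hypothesis `(∑ ∫ q2 P_i vol) R² ∑ c² ≤ qf (H i) c` by LBD with this `R`: `An β (R/2) R ⊆ An β (R/4) (64R)`)
gives the contradiction. -/
def SKeg : Prop := ∀ (n m : ℕ) (g : E n → Bl n) (Γ : E n → Bm n) (F : Fin n → E n → E n)
  (G : E n → Fin n → Fin n → Fin n → ℝ), IsMet g → IsChr g Γ → Frm g Γ F G → Cpl g → Sec g Γ →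
  ∀ (p : E n) (b β : E n → ℝ) (κ₀ r0 : ℝ), Bus g Γ p b κ₀ r0 → Lvl g b β →
  ∀ A : ℝ, 0 ≤ A → WDec g Γ F m p A → WDec g Γ F (m + 1) p A → ∃ M0 : ℕ, 1 ≤ M0 ∧
  ∀ M, M0 ≤ M → ∀ P : Fin M → E n → Tn n (m + 2), (∀ i, Hf g F G (P i)) →
  ∀ K : Set (E n), IsCompact K → ∀ δ : ℝ, 0 < δ → ∃ c : Fin M → ℝ, ∑ i, c i ^ 2 = 1 ∧
    ∫ x in K, q2 (∑ i, c i • P i x) * vol g x ≤ δ

/-- MTG (150 lines). Linear dependence. Hypotheses: StMet StDlv StBus TNrm SSmd SKeg.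
PROOF. `Bus g Γ p' b κ₀ r0` from BUS, `β` from SMD (`ε = 1`): `Lvl g b β`. Change of the base point: with `D = dg g p p'`, `1 + dg g p' x ^ 2 ≤ 1 + 2D² + 2 dg g p x ^ 2 ≤ (2 + 2D²)(1 + dg g p x ^ 2)`, so `WDec` for `p, A` implies
`WDec` for `p'`, `A' = (2 + 2D²) A` (`q2 t ≥ 0`). KEG: `M0`; `N + 1 = M0`. KEG for `K_k = closedBall 0 k`, `δ = 1/(k+1)`: unit vectors `c_k`; then as in module MTJ of project DSH
(`Pool/Agent/*/DSH/M_MTJ.lean`): a subsequence converges to a unit vector `c`, for fixed `K` the function `c ↦ ∫_K q2 (∑ c_i P_i) vol` is continuous, so `∫_K q2 (∑ c_i P_i) vol = 0` for every ball. -/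
def SMtg : Prop := ∀ (n m : ℕ) (g : E n → Bl n) (Γ : E n → Bm n) (F : Fin n → E n → E n)
  (G : E n → Fin n → Fin n → Fin n → ℝ), 1 ≤ n → IsMet g → IsChr g Γ → Frm g Γ F G → Cpl g →
  Sec g Γ → ∀ (p : E n) (A : ℝ), 0 ≤ A → WDec g Γ F m p A → WDec g Γ F (m + 1) p A →
  ∃ N : ℕ, ∀ P : Fin (N + 1) → E n → Tn n (m + 2), (∀ i, Hf g F G (P i)) →
  ∃ c : Fin (N + 1) → ℝ, ∑ i, c i ^ 2 = 1 ∧ ∀ x, ∑ i, c i • P i x = 0

/-! ## Curvature conditions -/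

/-- POL (200 lines). Bound of the curvature tensor by the sectional curvature. Hypotheses: StChr StCur.
PROOF. `R(a,b,c,d) = g x (Rm Γ x a b c) d`, multilinear. (i) `R(a,b,c,d) = - R(b,a,c,d)` (definition), (ii) `R(a,b,c,d) = - R(a,b,d,c)` (CUR), (iii) `R(a,b,c,d) + R(b,c,a,d) + R(c,a,b,d) = 0` (definition of `Rm`, symmetry of
`Γ` and of `fderiv Γ x a`, CHR), (iv) `R(a,b,c,d) = R(c,d,a,b)` (from (i)-(iii)). For fixed `u` the form `B_u(v,w) = R(u,v,w,u)` is symmetric by (iv), (i), (ii), and `0 ≤ B_u(v,v) ≤ κ |u|²|v|²`, so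
`|B_u(v,w)| ≤ κ |u|²|v||w|` (Cauchy-Schwarz). Let `u, v, w, z` be unit vectors. `B_{u+z}(v,w) = B_u(v,w) + B_z(v,w) + R(u,v,w,z) + R(z,v,w,u)` and `|u+z|² ≤ 4`, so `|R(u,v,w,z) + R(z,v,w,u)| ≤ 6κ`;
`R(z,v,w,u) = R(w,u,z,v) = R(u,w,v,z)`. So `T₁ = R(u,v,w,z) + R(u,w,v,z)` satisfies `|T₁| ≤ 6κ` (for all unit vectors), and also `T₂ = R(v,w,u,z) + R(v,u,w,z)`, `|T₂| ≤ 6κ`. Let `X = R(u,v,w,z)`. (iii):
`X + R(v,w,u,z) + R(w,u,v,z) = 0` with `R(v,w,u,z) = T₂ - R(v,u,w,z) = T₂ + X`, `R(w,u,v,z) = - R(u,w,v,z) = - T₁ + X`. So `3X = T₁ - T₂`, `|X| ≤ 4κ`. The `F a x` are unit vectors (`Onb.orth`). -/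
def SPol : Prop := ∀ (n : ℕ) (g : E n → Bl n) (Γ : E n → Bm n) (F : Fin n → E n → E n)
  (G : E n → Fin n → Fin n → Fin n → ℝ), IsMet g → IsChr g Γ → Frm g Γ F G → ∀ (x : E n) (κ : ℝ),
  0 ≤ κ → (∀ u v, 0 ≤ g x (Rm Γ x u v v) u) →
  (∀ u v, g x (Rm Γ x u v v) u ≤ κ * (g x u u * g x v v)) →
  ∀ a b c l, |Rc g Γ F x a b c l| ≤ 4 * κ

/-- WLB (80 lines). Bound of the Weitzenboeck form by the curvature. Hypotheses: TRho TNrm.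
PROOF. `|ipt (ct a t) (ct b (rho (R a b) t))| ≤ √(q2 (ct a t)) √(q2 (ct b (rho (R a b) t)))` (NRM (3)), `q2 (ct a s) ≤ (m+1) q2 s` (NRM (8), all terms are `≥ 0`), `q2 (rho (R a b) t) ≤ ((m+1) n B)² q2 t` (RHO (5)); sum over the
`n²` pairs: `C = n³ (m+1)²`. -/
def SWlb : Prop := ∀ n m : ℕ, ∃ C : ℝ, 0 ≤ C ∧ ∀ (R : Fin n → Fin n → Fin n → Fin n → ℝ) (B : ℝ),
  0 ≤ B → (∀ a b c l, |R a b c l| ≤ B) → ∀ t : Tn n (m + 1), |Wz R t| ≤ C * B * q2 t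

/-- WBG (150 lines). The Weitzenboeck form of alternating maps, with a lower bound. Hypotheses: StChr StCfr TAlt TNrm.
PROOF. As module WBR of project DSH (`Pool/Agent/*/DSH/M_WBR.lean`): for alternating `t` let `α v = ∑ I, t I * ∏ k, g x (v k) (F (I k) x)`, so that `α (fun k => F (I k) x) = t I`; `f a = F a x` is orthonormal and
`Wg Γ x f α = m! Wz (Rc x) t`; `nsq g (m+1) x α = q2 t` (`nsq_frame` in `Pool/Agent/Helper62/LH/Fin.lean`, or `nsq_cp`). So the hypothesis for `f, α` is `-(lam * q2 t * m!) ≤ m! Wz (Rc x) t`. -/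
def SWbg : Prop := ∀ (n m : ℕ) (g : E n → Bl n) (Γ : E n → Bm n) (F : Fin n → E n → E n)
  (G : E n → Fin n → Fin n → Fin n → ℝ), IsMet g → IsChr g Γ → Frm g Γ F G → ∀ (x : E n) (lam : ℝ),
  (∀ f : Fin n → E n, (∀ a b, g x (f a) (f b) = if a = b then 1 else 0) →
    ∀ α : E n [⋀^Fin (m + 1)]→L[ℝ] ℝ, -(lam * nsq g (m + 1) x α * m.factorial) ≤ Wg Γ x f α) →
  ∀ t : Tn n (m + 1), Altn t → -(lam * q2 t) ≤ Wz (Rc g Γ F x) t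

end Helper58.QD
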