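import Pool.Agent.Helper62.DSH.Res
import Pool.Agent.Helper58.QD.StE

/-!
# Project QD: definitions used by the final statement, and the main theorem from the modules
-/

set_option autoImplicit false
set_option maxSynthPendingDepth 3

open Set Filter Topology MeasureTheory
open scoped ContDiff ENNReal

noncomputable section

namespace Helper58.QD

open Helper62.LH Helper62.DSH

variable {n k l m : ℕ}

/-- the Weitzenboeck form of degree `m + 1` is at least `lam` times `|α|²` at `x` (for `m = 0`: Ricci curvature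
`≥ lam`); `weitz` is `m!` times the curvature term `⟨W α, α⟩` of the Bochner formula -/
def WeitzGe (g : E n → Bl n) (m : ℕ) (x : E n) (lam : ℝ) : Prop :=
  ∀ f, IsOrtho g x f → ∀ α : E n [⋀^Fin (m + 1)]→L[ℝ] ℝ,
    lam * (nsq g (m + 1) x α * m.factorial) ≤ weitz g x f α

/-- the sectional curvatures at `x` are at most `lam` -/
def SecLe (g : E n → Bl n) (x : E n) (lam : ℝ) : Prop :=
  ∀ u v, gx g x (curv g x u v v) u ≤ lam * (gx g x u u * gx g x v v - gx g x u v ^ 2)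

theorem wdec_of_weitzGe (hWbg : SWbg) {g : E n → Bl n} {Γ : E n → Bm n} {F : Fin n → E n → E n}
    {G : E n → Fin n → Fin n → Fin n → ℝ} (hg : IsMet g) (hΓ : IsChr g Γ) (hF : Frm g Γ F G)
    {A : ℝ} (hW : ∀ x, WeitzGe g m x (-(A / (1 + dg g 0 x ^ 2)))) : WDec g Γ F m 0 A := by
  intro x t ht
  refine hWbg n m g Γ F G hg hΓ hF x _ ?_ t ht
  intro f hf α
  have h := hW x f hf α
  rw [weitz_eq hg hΓ] at h
  refine le_trans (le_of_eq ?_) h
  ring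

theorem wdec_mono {g : E n → Bl n} {Γ : E n → Bm n} {F : Fin n → E n → E n} {p : E n} {A A' : ℝ}
    (hNrm : TNrm) (hA : A ≤ A') (h : WDec g Γ F m p A) : WDec g Γ F m p A' := by
  intro x t ht
  refine le_trans ?_ (h x t ht)
  have h1 : 0 ≤ q2 t := ((hNrm n (m + 1)).1 t).1
  have h2 : A / (1 + dg g p x ^ 2) ≤ A' / (1 + dg g p x ^ 2) := by gcongr
  have h3 := mul_le_mul_of_nonneg_right h2 h1
  linarith

theorem wdec_of_sec (hNrm : TNrm) (hPol : SPol) (hWlb : SWlb) (n m : ℕ) : ∃ C : ℝ, 0 ≤ C ∧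
    ∀ {g : E n → Bl n} {Γ : E n → Bm n} {F : Fin n → E n → E n}
    {G : E n → Fin n → Fin n → Fin n → ℝ}, IsMet g → IsChr g Γ → Frm g Γ F G →
    Sec g Γ → ∀ {A : ℝ}, 0 ≤ A → (∀ x, SecLe g x (A / (1 + dg g 0 x ^ 2))) →
    WDec g Γ F m 0 (C * A) := by
  obtain ⟨C, hC, hC'⟩ := hWlb n m
  refine ⟨4 * C, by positivity, ?_⟩
  intro g Γ F G hg hΓ hF hs A hA hSec x t ht
  have hlam : 0 ≤ A / (1 + dg g 0 x ^ 2) := by positivity
  have h1 : ∀ a b c l, |Rc g Γ F x a b c l| ≤ 4 * (A / (1 + dg g 0 x ^ 2)) := by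
    refine hPol n g Γ F G hg hΓ hF x _ hlam (hs x) ?_
    intro u v
    have h2 := hSec x u v
    unfold gx at h2
    rw [curv_eq hg hΓ] at h2
    refine h2.trans (mul_le_mul_of_nonneg_left ?_ hlam)
    have h3 : 0 ≤ g x u v ^ 2 := sq_nonneg _
    linarith
  have h4 := hC' (Rc g Γ F x) (4 * (A / (1 + dg g 0 x ^ 2))) (by positivity) h1 t
  have h5 := neg_le_of_abs_le h4
  refine le_trans (le_of_eq ?_) h5
  ring

/-- linear dependence of harmonic forms of degree `m + 2` -/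
theorem dep_qd (hCfr : StCfr) (hBrc : TBrc) (hPlj : TPlj) (hBrs : TBrs) (hMtg : SMtg)
    (h : (m + 2) + l = n) {g : E n → Bl n} {Γ : E n → Bm n} {F : Fin n → E n → E n}
    {G : E n → Fin n → Fin n → Fin n → ℝ} (hg : IsMet g) (hΓ : IsChr g Γ) (hF : Frm g Γ F G)
    (hc : Cpl g) (hs : Sec g Γ) {A : ℝ} (hA : 0 ≤ A) (h1 : WDec g Γ F m 0 A)
    (h2 : WDec g Γ F (m + 1) 0 A) : ∃ N : ℕ, Dep N {φ : Fm n (m + 2) | Harm h g φ} := by
  obtain ⟨N, hN⟩ := hMtg n m g Γ F G (by omega) hg hΓ hF hc hs 0 A hA h1 h2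
  refine ⟨N, ?_⟩
  intro φ hφ
  obtain ⟨c, hc1, hc0⟩ := hN (fun i => cp F (φ i))
    (fun i => hf_of_harm hCfr hBrc hPlj hBrs h hg hΓ hF (hφ i))
  refine ⟨c, fun h0 => ?_, ?_⟩
  · rw [h0] at hc1
    simp at hc1
  · funext x
    apply eq_zero_of_cp (hF.onb x)
    intro I
    have h2 := congrFun (hc0 x) I
    rw [Finset.sum_apply] at h2
    have h3 : ∑ i, c i * φ i x (fun k => F (I k) x) = 0 := by
      refine Eq.trans ?_ h2
      refine Finset.sum_congr rfl fun i _ => ?_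
      simp only [Pi.smul_apply, smul_eq_mul]
      rfl
    simpa [Finset.sum_apply] using h3

theorem main_qd (hOnb : StOnb) (hCfr : StCfr) (hShp : StShp) (hDlv : StDlv) (hDua : StDua)
    (hBrc : TBrc) (hPlj : TPlj) (hBrs : TBrs) (hFrm : TFrm) (hGfr : TGfr) (hNrm : TNrm)
    (hMtg : SMtg) (hPol : SPol) (hWlb : SWlb) (hWbg : SWbg)
    (n : ℕ) (g : E n → Bl n) (hg : IsMet g) (hc : Cpl g)
    (hs : SecNonneg g) (A : ℝ) (hA : 0 ≤ A) :
    (∀ (m l : ℕ) (h : (m + 2) + l = n) (h' : l + (m + 2) = n),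
      (∀ x, WeitzGe g m x (-(A / (1 + dg g 0 x ^ 2)))) →
      (∀ x, WeitzGe g (m + 1) x (-(A / (1 + dg g 0 x ^ 2)))) → ∃ N : ℕ,
        DimLe {φ : E n → E n [⋀^Fin (m + 2)]→L[ℝ] ℝ | Harmonic h g φ} N ∧
        DimLe {φ : E n → E n [⋀^Fin l]→L[ℝ] ℝ | Harmonic h' g φ} N) ∧
    ((∀ x, SecLe g x (A / (1 + dg g 0 x ^ 2))) → ∀ (k l : ℕ) (h : k + l = n), ∃ N : ℕ,
      DimLe {φ : E n → E n [⋀^Fin k]→L[ℝ] ℝ | Harmonic h g φ} N) := by
  obtain ⟨Γ, hΓ⟩ := pChe n g hg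
  have hs' : Sec g Γ := by
    intro x u v
    have := hs x u v
    rwa [curv_eq hg hΓ] at this
  obtain ⟨F, hF1, hF2, hF3⟩ := hFrm n g hg
  obtain ⟨G, hF⟩ := hGfr n g Γ hg hΓ F hF1 hF2 hF3
  have first : ∀ (m l : ℕ) (h : (m + 2) + l = n) (h' : l + (m + 2) = n) (B : ℝ), 0 ≤ B →
      WDec g Γ F m 0 B → WDec g Γ F (m + 1) 0 B → ∃ N : ℕ,
        DimLe {φ : E n → E n [⋀^Fin (m + 2)]→L[ℝ] ℝ | Harmonic h g φ} N ∧
        DimLe {φ : E n → E n [⋀^Fin l]→L[ℝ] ℝ | Harmonic h' g φ} N := by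
    intro m l h h' B hB h1 h2
    obtain ⟨N, hd⟩ := dep_qd hCfr hBrc hPlj hBrs hMtg h hg hΓ hF hc hs' hB h1 h2
    exact ⟨N, dimLe_of_dep hOnb hCfr hShp hDlv h hg hΓ hd,
      dimLe_of_dep hOnb hCfr hShp hDlv h' hg hΓ (dep_dual hDua h' h hg hd)⟩
  refine ⟨?_, ?_⟩
  · intro m l h h' hW1 hW2
    exact first m l h h' A hA (wdec_of_weitzGe hWbg hg hΓ hF hW1)
      (wdec_of_weitzGe hWbg hg hΓ hF hW2)
  · intro hSec k l h
    by_cases hk : k ≤ 2 ∨ l ≤ 2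
    · exact ⟨_, main' n g hg hc hs k l h hk⟩
    · push Not at hk
      obtain ⟨hk1, hl1⟩ := hk
      obtain ⟨m, rfl⟩ : ∃ m, k = m + 2 := ⟨k - 2, by omega⟩
      obtain ⟨C1, hC1, hC1'⟩ := wdec_of_sec hNrm hPol hWlb n m
      obtain ⟨C2, hC2, hC2'⟩ := wdec_of_sec hNrm hPol hWlb n (m + 1)
      have e1 : WDec g Γ F m 0 ((C1 + C2) * A) :=
        wdec_mono hNrm (by nlinarith) (hC1' hg hΓ hF hs' hA hSec)
      have e2 : WDec g Γ F (m + 1) 0 ((C1 + C2) * A) :=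
        wdec_mono hNrm (by nlinarith) (hC2' hg hΓ hF hs' hA hSec)
      obtain ⟨N, h1, -⟩ := first m l h (by omega) _ (by positivity) e1 e2
      exact ⟨N, h1⟩

end Helper58.QD
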