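import Pool.Agent.Helper58.QD.All

/-!
# Project QD: the main theorem
-/

set_option autoImplicit false

noncomputable section

namespace Helper58.QD

open Helper62.LH Helper62.DSH

theorem main_all (n : ℕ) (g : E n → Bl n) (hg : IsMet g) (hc : Cpl g) (hs : SecNonneg g)
    (A : ℝ) (hA : 0 ≤ A) :
    (∀ (m l : ℕ) (h : (m + 2) + l = n) (h' : l + (m + 2) = n),
      (∀ x, WeitzGe g m x (-(A / (1 + dg g 0 x ^ 2)))) →
      (∀ x, WeitzGe g (m + 1) x (-(A / (1 + dg g 0 x ^ 2)))) → ∃ N : ℕ,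
        DimLe {φ : E n → E n [⋀^Fin (m + 2)]→L[ℝ] ℝ | Harmonic h g φ} N ∧
        DimLe {φ : E n → E n [⋀^Fin l]→L[ℝ] ℝ | Harmonic h' g φ} N) ∧
    ((∀ x, SecLe g x (A / (1 + dg g 0 x ^ 2))) → ∀ (k l : ℕ) (h : k + l = n), ∃ N : ℕ,
      DimLe {φ : E n → E n [⋀^Fin k]→L[ℝ] ℝ | Harmonic h g φ} N) :=
  main_qd Helper62.LH.pOnb Helper62.LH.pCfr Helper62.LH.pShp Helper62.LH.pDlv
    Helper62.LH.pDua Helper62.DSH.pBrc Helper62.DSH.pPlj Helper62.DSH.pBrs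
    Helper62.DSH.pFrm Helper62.DSH.pGfr Helper62.DSH.pNrm pMtg pPol pWlb pWbg n g hg hc hs A hA

theorem dimLe_mono {V : Type} [AddCommGroup V] [Module ℝ V] {S : Set V} {N N' : ℕ}
    (h : DimLe S N) (hN : N ≤ N') : DimLe S N' := by
  obtain ⟨H, h1, h2, h3⟩ := h
  exact ⟨H, h1, h2, h3.trans hN⟩

/-- Main theorem of project QD. -/
theorem main_final (n : ℕ) (g : E n → Bl n) (hg : IsMet g) (hc : Cpl g) (hs : SecNonneg g)
    (A : ℝ) (hA : 0 ≤ A) (k l : ℕ) (h : k + l = n) (h' : l + k = n)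
    (hcurv : (∀ x, SecLe g x (A / (1 + dg g 0 x ^ 2))) ∨
      ∃ m, k = m + 2 ∧ ∀ x, WeitzGe g m x (-(A / (1 + dg g 0 x ^ 2))) ∧
        WeitzGe g (m + 1) x (-(A / (1 + dg g 0 x ^ 2)))) :
    ∃ N : ℕ, DimLe {φ : E n → E n [⋀^Fin k]→L[ℝ] ℝ | Harmonic h g φ} N ∧
      DimLe {φ : E n → E n [⋀^Fin l]→L[ℝ] ℝ | Harmonic h' g φ} N := by
  obtain ⟨h1, h2⟩ := main_all n g hg hc hs A hA
  rcases hcurv with hS | ⟨m, rfl, hW⟩
  · obtain ⟨N1, hN1⟩ := h2 hS k l h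
    obtain ⟨N2, hN2⟩ := h2 hS l k h'
    exact ⟨max N1 N2, dimLe_mono hN1 (le_max_left _ _), dimLe_mono hN2 (le_max_right _ _)⟩
  · exact h1 m l h h' (fun x => (hW x).1) (fun x => (hW x).2)

end Helper58.QD
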