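import Pool.Agent.Helper58.QD.StM

/-!
# Project QD, part F: differential forms, pull back by small maps, extension of primitives with sup bounds

Statements with complete proofs in the docstrings. Forms are functions `E n → Fk n k`.
-/

set_option autoImplicit false

open Set Filter Topology MeasureTheory
open Helper62.LH Helper62.DSH
open scoped ContDiff ENNReal

noncomputable section

namespace Helper58.QD

/-- alternating forms on `ℝⁿ` -/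
abbrev Fk (n k : ℕ) : Type := E n [⋀^Fin k]→L[ℝ] ℝ

/-- norm of a form at `x` -/
def nn {n k : ℕ} (g : E n → Bl n) (x : E n) (α : Fk n k) : ℝ := √(nsq g k x α)

/-- pull back by a linear map -/
def pb {n k : ℕ} (L : E n →L[ℝ] E n) (α : Fk n k) : Fk n k := α.compContinuousLinearMap L

/-- derivative of the map `x ↦ x + s • Y x` -/
def dY {n : ℕ} (Y : E n → E n) (s : ℝ) (x : E n) : E n →L[ℝ] E n :=
  ContinuousLinearMap.id ℝ (E n) + s • fderiv ℝ Y x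

/-- homotopy form of the maps `x ↦ x + s • Y x`, `0 ≤ s ≤ 1` -/
def hmt {n j : ℕ} (μ : E n → Fk n (j + 1)) (Y : E n → E n) (x : E n) : Fk n j :=
  ∫ s in (0 : ℝ)..1, pb (dY Y s x) ((μ (x + s • Y x)).curryLeft (Y x))

/-- the vector field `- ζ(b) ∇b` -/
def gX {n : ℕ} (g : E n → Bl n) (ζ : ℝ → ℝ) (b : E n → ℝ) (x : E n) : E n :=
  -(ζ (b x) • shp g x (fderiv ℝ b x))

/-! ## Norms of forms -/

/-- NNA (150 lines). The norm of forms. Hypotheses: StOnb StCfr.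
PROOF. With an orthonormal basis `f` of `g x` (ONB) `nsq g k x α = (∑ I, α (f ∘ I)²)/k!` (CFR; lemma `nsq_frame` in `Pool/Agent/Helper62/LH/Fin.lean`), the square
of a euclidean norm of the family `α (f ∘ I)`, which is linear in `α`: triangle inequality, homogeneity. (4) The form `∫ f` has the values
`∫ f s (f ∘ I)` (evaluation is a continuous linear map); `∑ I, (∫_0^1 a_I)² ≤ ∫_0^1 ∑ a_I²` (Cauchy-Schwarz). (5) `(∫ ρ a_I)² ≤ ∫ ρ a_I²` because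
`0 ≤ ∫ ρ (a_I - m)²`, `m = ∫ ρ a_I`, `∫ ρ = 1` (continuous functions with compact support are integrable). -/
def SNna : Prop := ∀ (n k : ℕ) (g : E n → Bl n), IsMet g → ∀ x : E n,
  (∀ α : Fk n k, 0 ≤ nsq g k x α ∧ nn g x α ^ 2 = nsq g k x α ∧ 0 ≤ nn g x α) ∧
  (∀ α β : Fk n k, nn g x (α + β) ≤ nn g x α + nn g x β) ∧
  (∀ (c : ℝ) (α : Fk n k), nn g x (c • α) = |c| * nn g x α) ∧
  (∀ (f : ℝ → Fk n k) (B : ℝ), Continuous f → (∀ s ∈ Icc (0 : ℝ) 1, nn g x (f s) ≤ B) →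
    nn g x (∫ s in (0 : ℝ)..1, f s) ≤ B) ∧
  ∀ (ρ : E n → ℝ) (f : E n → Fk n k), Mol ρ → Continuous f →
    nsq g k x (∫ y, ρ y • f y) ≤ ∫ y, ρ y * nsq g k x (f y)

/-- NNK (150 lines). Comparison of the norms on compact sets. Hypotheses: StChe StShp StOnb StCfr.
PROOF. A form has the components `t_I = α (ee ∘ I)`; `|t_I| ≤ ‖α‖`, and `‖α‖ ≤ ∑ I, |t_I|` (`α v = ∑ I, ∏ k, (v k) (I k) * t_I`). `nsq g k x α` is a quadratic form in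
`t` whose coefficients are continuous in `x` (`gi` is smooth: SHP with a connection from CHE), and it is positive if `t ≠ 0` is the component family of a form
(orthonormal basis: if all `α (f ∘ I)` vanish then `α = 0`, see `eq_zero_of_cp` in `Pool/Agent/Helper62/DSH/Fin.lean`). The component families of forms are a
subspace of `Tn n k`; on the product of `K` and its unit sphere (compact) `nsq` has a positive minimum and a maximum: first claim. Second claim: `nsq` is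
uniformly continuous on (closed `1`-neighbourhood of `K`) × sphere, so `|nsq g k x t - nsq g k y t| ≤ κ c'` for `‖x - y‖ ≤ δ ≤ 1`, `|t| = 1`, where `c' > 0` is
a lower bound of `nsq` there; homogeneity. (If `K = ∅`, or all forms vanish, take `c = C = δ = 1`.) -/
def SNnk : Prop := ∀ (n k : ℕ) (g : E n → Bl n), IsMet g → ∀ K : Set (E n), IsCompact K →
  (∃ c C : ℝ, 0 < c ∧ 0 < C ∧ ∀ x ∈ K, ∀ α : Fk n k, c * ‖α‖ ≤ nn g x α ∧ nn g x α ≤ C * ‖α‖) ∧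
  ∀ κ : ℝ, 0 < κ → ∃ δ : ℝ, 0 < δ ∧ ∀ x ∈ K, ∀ y, ‖x - y‖ ≤ δ → ∀ α : Fk n k,
    nsq g k x α ≤ (1 + κ) * nsq g k y α

/-- PBN (180 lines). Norm of the pull back and of the contraction. Hypotheses: StOnb StCfr.
PROOF. Orthonormal bases `f` of `g x` and `e` of `g y`; `nsq g k x α = (∑ I, α (f ∘ I)²)/k!`, the same for `y` (`nsq_frame` in `Pool/Agent/Helper62/LH/Fin.lean`).
(1) `L (f a) = ∑ b, Λ b a • e b`, `Λ b a = g y (L (f a)) (e b)`; the hypothesis says `∑ b, (∑ a, Λ b a w_a)² ≤ a² ∑ w_a²` for all `w`, so also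
`∑ a, (∑ b, Λ b a w_b)² ≤ a² ∑ w_b²`: with `z_a = ∑ b, Λ b a w_b`, `∑ z_a² = ∑ b, w_b (∑ a, Λ b a z_a) ≤ √(∑ w²) a √(∑ z²)`. `α (L ∘ f ∘ I) = ∑ J, (∏ k, Λ (J k) (I k)) t_J`,
`t_J = α (e ∘ J)` (multilinearity), and `∑ I, (∑ J, (∏ k, Λ (J k) (I k)) t_J)² ≤ (a²)^k ∑ J, t_J²` for all families `t : (Fin k → Fin n) → ℝ` by induction on
`k` (`Fin.consEquiv`/`Fin.cons`: apply the inequality to the first index for fixed other indices, then the induction hypothesis). (2)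
`v = ∑ a, g y v (e a) • e a`, so `(α.curryLeft v) (e ∘ K) = ∑ a, v_a α (e a, e ∘ K)`, its square is `≤ (∑ v_a²) ∑ a, α (e a, e ∘ K)²`; sum over `K`:
`k! nsq(curryLeft) ≤ g(v,v) (k+1)! nsq α`, and `√(k+1) ≤ k+1`. -/
def SPbn : Prop := ∀ (n k : ℕ) (g : E n → Bl n), IsMet g → ∀ x y : E n,
  (∀ (L : E n →L[ℝ] E n) (a : ℝ), 0 ≤ a → (∀ v, g y (L v) (L v) ≤ a ^ 2 * g x v v) →
    ∀ α : Fk n k, nn g x (pb L α) ≤ a ^ k * nn g y α) ∧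
  ∀ (α : Fk n (k + 1)) (v : E n), nn g y (α.curryLeft v) ≤ (k + 1) * √(g y v v) * nn g y α

/-! ## Pull back -/

/-- HMT (250 lines). Homotopy formula.
PROOF. Smoothness and differentiation under the integral: lemmas `par_smooth`, `par_D` in `Pool/Agent/Helper81/DSH/M_PLJ.lean` (parameter integrals over `[0,1]`
with values in a Banach space). (4) is `extDeriv_pullback` for `f x = x + Y x`, `fderiv f x = dY Y 1 x`. (2) For `H : E n × ℝ → E n`, `H (x,s) = x + s • Y x` (smooth), the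
pull back `Ω q = (μ (H q)).compContinuousLinearMap (fderiv ℝ H q)` satisfies `extDeriv Ω = 0` (`extDeriv_pullback`), `fderiv ℝ H (x,s) (v,r) = dY Y s x v + r • Y x`.
Evaluate `extDeriv Ω (x,s) = 0` on the vectors `(0,1), (v_0,0), ..., (v_j,0)` (`extDeriv_apply`, `Fin.sum_univ_succ`):
`∂_s (pb (dY Y s x) (μ (x + s • Y x)) v) = ∑ i, (-1)^i D_{v_i} (x ↦ β_s x (v without v_i)) x = extDeriv β_s x v`, where
`β_s x = pb (dY Y s x) ((μ (x + s • Y x)).curryLeft (Y x))` (the value of `Ω` on `(0,1), (w_1,0), ..., (w_j,0)`). Integrate over `s ∈ [0,1]`: `extDeriv (hmt μ Y) x v =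
∫ extDeriv β_s x v ds = pb (dY Y 1 x) (μ (x + Y x)) v - μ x v` as `dY Y 0 x = id`. -/
def SHmt : Prop := ∀ (n j : ℕ) (Y : E n → E n), ContDiff ℝ ∞ Y →
  (∀ μ : E n → Fk n (j + 1), ContDiff ℝ ∞ μ → ContDiff ℝ ∞ (hmt μ Y) ∧
    ((∀ x, extDeriv μ x = 0) → ∀ x, extDeriv (hmt μ Y) x = pb (dY Y 1 x) (μ (x + Y x)) - μ x) ∧
    ∀ x, Continuous (fun s : ℝ => pb (dY Y s x) ((μ (x + s • Y x)).curryLeft (Y x)))) ∧
  ∀ u : E n → Fk n j, ContDiff ℝ ∞ u →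
    ContDiff ℝ ∞ (fun x => pb (dY Y 1 x) (u (x + Y x))) ∧
    ∀ x, extDeriv (fun z => pb (dY Y 1 z) (u (z + Y z))) x = pb (dY Y 1 x) (extDeriv u (x + Y x))

/-- STP (250 lines). One step of the gradient descent of an almost convex function. Hypotheses: StChr StShp StCmp.
PROOF. `X = gX g ζ b` is smooth, `g(X,X) = ζ² ip(Db,Db)` (SHP). If `b x ≤ t0` then `ζ(b x) = 0` and `ζ'(b x) = 0` (`ζ` vanishes on `(-∞,t0]` and is differentiable), so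
`X x = 0` and `DX x = -(ζ'(b x) Db ⊗ ∇b + ζ(b x) D∇b) = 0`. Let `K₁` be a compact set containing `x + τ • X x` for `x ∈ K`, `0 ≤ τ ≤ 1`; `C` denotes constants
depending on `K` (bounds of continuous functions on compact sets, comparison of `‖v‖²` and `g x v v` by CMP). With `y = x + τ • X x`, `τ = s h`:
(a) `φ(τ) = b(x + τ • X x)`: `φ'(0) = Db(X) = - ζ gs b x`, `|φ''| ≤ C‖X‖² ≤ C g(X,X) ≤ C ζ gs` (`0 ≤ ζ ≤ 1`), so `φ(τ) ≤ b x - τ ζ gs + C τ² ζ gs ≤ b x - (τ/2) ζ gs` for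
`Cτ ≤ 1/2`. (b) Let `t0 ≤ b x`: `ζ(b x) ≤ C (b x - t0)` (mean value theorem, `ζ t0 = 0`), `φ(τ) ≥ b x - τ C ‖X‖ ≥ b x - τ C ζ(b x) ≥ b x - C τ (b x - t0) ≥ t0` for
`Cτ ≤ 1`. (c) `q(τ) = g(x + τX)(v + τDXv)(v + τDXv)`: `q 0 = g x v v`, `|q''| ≤ C‖v‖² ≤ C g x v v`, and by CHR `q'(0) = Dg(X)(v)(v) + 2 g(DXv,v) =
2 g(DXv + Γ(v,X), v)`; `X = shp θ` with `θ = - ζ(b) Db`, so by SHP (last) this is `2 cf Γ θ x v v = - 2 ζ'(b) (Db v)² - 2 ζ(b) Hs Γ b x v v ≤ 2 ε0 g x v v` (`ζ' ≥ 0`). So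
`q(τ) ≤ (1 + 2τε0 + Cτ²) g x v v ≤ (1 + 2τ(ε0+ε)) g x v v` for `Cτ ≤ 2ε`, and `≤ 4 g x v v` for `2τ(ε0+ε) ≤ 3`. (d) `g(x + τX)(w)(w) ≤ 4 g x w w` for small `τ`
(uniform continuity of `g` on `K₁` and CMP). -/
def SStp : Prop := ∀ (n : ℕ) (g : E n → Bl n) (Γ : E n → Bm n), IsMet g → IsChr g Γ →
  ∀ (b : E n → ℝ) (ζ : ℝ → ℝ) (t0 ε0 ε : ℝ), ContDiff ℝ ∞ b → ContDiff ℝ ∞ ζ → Monotone ζ →
  (∀ s, 0 ≤ ζ s ∧ ζ s ≤ 1) → (∀ s ≤ t0, ζ s = 0) → 0 ≤ ε0 → 0 < ε →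
  (∀ x v, -(ε0 * g x v v) ≤ Hs Γ b x v v) → ∀ K : Set (E n), IsCompact K →
  ContDiff ℝ ∞ (gX g ζ b) ∧
  (∀ x, g x (gX g ζ b x) (gX g ζ b x) = ζ (b x) ^ 2 * gs g b x) ∧
  (∀ x, b x ≤ t0 → gX g ζ b x = 0 ∧ fderiv ℝ (gX g ζ b) x = 0) ∧
  ∃ h0 : ℝ, 0 < h0 ∧ ∀ h : ℝ, 0 < h → h ≤ h0 → ∀ x ∈ K,
    (∀ s ∈ Icc (0 : ℝ) 1,
      b (x + s • (h • gX g ζ b x)) ≤ b x ∧
      (t0 ≤ b x → t0 ≤ b (x + s • (h • gX g ζ b x))) ∧
      (∀ v, g (x + s • (h • gX g ζ b x)) (dY (fun y => h • gX g ζ b y) s x v)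
        (dY (fun y => h • gX g ζ b y) s x v) ≤ 4 * g x v v) ∧
      g (x + s • (h • gX g ζ b x)) (gX g ζ b x) (gX g ζ b x) ≤
        4 * g x (gX g ζ b x) (gX g ζ b x)) ∧
    b (x + h • gX g ζ b x) ≤ b x - h / 2 * (ζ (b x) * gs g b x) ∧
    ∀ v, g (x + h • gX g ζ b x) (dY (fun y => h • gX g ζ b y) 1 x v)
      (dY (fun y => h • gX g ζ b y) 1 x v) ≤ (1 + 2 * h * (ε0 + ε)) * g x v v

/-- GLB (150 lines). Lower bound for the gradient. Hypotheses: StMet StDlc StMg StRgc StIna.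
PROOF. Let `x` be given with `T/4 ≤ b' x ≤ 6T`, `c` a metric geodesic from `p` to `x` (MG), `v` its velocity (RGC: `Geo Γ c v 0 1`, `g(v,v) = d²`, `d = dg g p x`),
`φ(t) = b'(c t)`: `φ' = Db'(v)`, `φ'' = D²b'(v,v) - Db'(Γ(v,v)) = Hs Γ b' (v,v) ≥ - ε0 d²`. So `φ'(t) ≤ φ'(1) + ε0 d² (1-t)` and `φ 1 - φ 0 ≤ φ'(1) + ε0 d²/2`.
`φ 1 - φ 0 = b' x - b' p ≥ b x - b p - 2`, `φ'(1) ≤ √(gs g b' x) d` (INA (5)). For `T ≥ T0`: `b x ≥ T/4 - 1 ≥ 2 (|b p| + 2)`, and `r0 ≤ d` (otherwise `b x ≤ b p + d < b p + r0`, too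
small), so `κ d ≤ b x` (`Bus.gro`), `d > 0` and `(b x - b p - 2)/d ≥ (b x/2)/d ≥ κ/2`; `d ≤ b x/κ ≤ 7T/κ`, `ε0 d/2 ≤ (κ²/(40T)) (7T/(2κ)) ≤ κ/4`. So `√(gs g b' x) ≥ κ/4`. -/
def SGlb : Prop := ∀ (n : ℕ) (g : E n → Bl n) (Γ : E n → Bm n), IsMet g → IsChr g Γ → Cpl g →
  ∀ (p : E n) (b : E n → ℝ) (κ r0 : ℝ), Bus g Γ p b κ r0 → ∃ T0 : ℝ, 1 ≤ T0 ∧
  ∀ (T : ℝ) (b' : E n → ℝ) (ε0 : ℝ), T0 ≤ T → ContDiff ℝ ∞ b' → (∀ x, |b' x - b x| ≤ 1) →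
  0 ≤ ε0 → ε0 * (40 * T) ≤ κ ^ 2 → (∀ x v, -(ε0 * g x v v) ≤ Hs Γ b' x v v) →
  ∀ x, T / 4 ≤ b' x → b' x ≤ 6 * T → κ ^ 2 / 16 ≤ gs g b' x

/-! ## Extension with sup bounds -/

/-- PUL (280 lines). Extension of a primitive from a collar. Hypotheses: SNna SPbn SHmt SStp.
PROOF. `ζ s = Real.smoothTransition (8 (s - T/2)/T)`: `0` for `s ≤ T/2`, `1` for `s ≥ 5T/8`, smooth, monotone (`Real.smoothTransition.monotone`). STP with `t0 = T/2`,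
`ε0 = ε`, `K = {b ≤ 6T}`: `h0`. `N` a natural number with `h = 9T/(N c²) ≤ h0`, `X = gX g ζ b`, `Y = h • X`, `F x = x + Y x`, `u_0 = u`,
`u_{i+1} x = pb (dY Y 1 x) (u_i (F x)) - hmt μ Y x`. By HMT (`μ` is closed: `extDeriv_extDeriv`) and induction `u_i` is smooth, `extDeriv u_i = μ`. If `b x ≤ T/2`: `Y x = 0`,
`fderiv Y x = 0`, so `dY Y 1 x = id`, `hmt μ Y x = 0` (the integrand is `pb _ (curryLeft 0) = 0`), `u_{i+1} x = u_i x`. So `u_i x = u x` there.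
Let `D = 2^(j+2) (j+1)/c`, `E = (1 + 4hε)^j`, `l_i = 3T/4 + i h c²/2` (`l_i ≤ 3T/4 + 9T/2 ≤ 6T` for `i ≤ N`, `l_N ≥ 5T`). CLAIM: `nn g x (u_i x) ≤ E^i (U + D W (b x - T/2))` for
`T/2 ≤ b x ≤ l_i`, `i ≤ N`. `i = 0`: hypothesis. Step: let `T/2 ≤ b x ≤ l_{i+1}`. Then `T/2 ≤ b (F x)`, and `b (F x) ≤ l_i`: clear if `b x ≤ l_i` (`b (F x) ≤ b x`); otherwise
`b x ≥ 3T/4`, `ζ(b x) = 1`, `b (F x) ≤ b x - (h/2) gs ≤ b x - h c²/2 ≤ l_i`. PBN (1) with `a = √(1+4hε)` (STP, `ε0 + ε = 2ε`), `a^j ≤ E`: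
`nn g x (pb (dY Y 1 x) (u_i (F x))) ≤ E E^i (U + D W (b (F x) - T/2))`. Homotopy term: for `s ∈ [0,1]`, `z = x + s • Y x`, `T/2 ≤ b z ≤ 6T`, PBN (1) with `a = 2`, (2):
the integrand has norm `≤ 2^j (j+1) √(g z (Y x) (Y x)) W ≤ 2^j (j+1) 2 h √(g x (X x) (X x)) W = 2^(j+1) (j+1) h ζ √gs W ≤ D W (h/2) ζ gs ≤ D W (b x - b (F x))` (as `c ≤ √gs`), so
by NNA (4) the same for `hmt μ Y x`. Sum, with `E ≥ 1`: `≤ E^(i+1) (U + D W (b x - T/2))`. END: `E^N ≤ exp(4 j N h ε) = exp(36 j T ε/c²) ≤ exp 1 ≤ 3`, and for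
`b x ≤ 5T ≤ l_N`: `nn g x (u_N x) ≤ 3 (U + D W (9T/2))`. `C = 3 + 27 * 2^(j+1) * (j+1)`. -/
def SPul : Prop := ∀ (n j : ℕ), ∃ C : ℝ, 0 < C ∧ ∀ (g : E n → Bl n) (Γ : E n → Bm n), IsMet g →
  IsChr g Γ → ∀ (b : E n → ℝ) (T c ε : ℝ), ContDiff ℝ ∞ b → (∀ R, IsCompact {x | b x ≤ R}) →
  0 < T → 0 < c → 0 < ε → ε * (40 * (j + 1) * T) ≤ c ^ 2 →
  (∀ x v, -(ε * g x v v) ≤ Hs Γ b x v v) →
  (∀ x, T / 2 ≤ b x → b x ≤ 6 * T → c ^ 2 ≤ gs g b x) →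
  ∀ (μ : E n → Fk n (j + 1)) (u : E n → Fk n j), ContDiff ℝ ∞ μ → ContDiff ℝ ∞ u →
  (∀ x, extDeriv u x = μ x) → ∀ U W : ℝ, 0 ≤ U → 0 ≤ W →
  (∀ x, T / 2 ≤ b x → b x ≤ 3 * T / 4 → nn g x (u x) ≤ U) →
  (∀ x, T / 2 ≤ b x → b x ≤ 6 * T → nn g x (μ x) ≤ W) →
  ∃ u' : E n → Fk n j, ContDiff ℝ ∞ u' ∧ (∀ x, extDeriv u' x = μ x) ∧
    (∀ x, b x ≤ T / 2 → u' x = u x) ∧
    ∀ x, T / 2 ≤ b x → b x ≤ 5 * T → nn g x (u' x) ≤ C * (U + T / c * W)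

/-- PUC (120 lines). The same for component families. Hypotheses: StCfr TNrm TDer TFmk TBrc SNna SPul.
PROOF. `P = dF F G u` is smooth (DER). FMK: `φ` smooth with `cp F φ = u`; `μ x = extDeriv φ x` is smooth and `cp F μ = dF F G (cp F φ) = P` (BRC); `nn g x α ^ 2 = nsq = q2` of the
components (`nsq_cp` in `Pool/Agent/Helper62/DSH/Fin.lean`). PUL with `√U`, `√W`: `φ'`; `u' = cp F φ'` is smooth, alternating, `dF u' = cp F (extDeriv φ') = cp F μ = P`,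
`√(q2 (u' x)) ≤ C (√U + (T/c) √W)`, so `q2 (u' x) ≤ 2 C² (U + (T/c)² W)`. -/
def SPuc : Prop := ∀ (n j : ℕ), ∃ C : ℝ, 0 < C ∧ ∀ (g : E n → Bl n) (Γ : E n → Bm n)
  (F : Fin n → E n → E n) (G : E n → Fin n → Fin n → Fin n → ℝ), IsMet g → IsChr g Γ →
  Frm g Γ F G → ∀ (b : E n → ℝ) (T c ε : ℝ), ContDiff ℝ ∞ b → (∀ R, IsCompact {x | b x ≤ R}) →
  0 < T → 0 < c → 0 < ε → ε * (40 * (j + 1) * T) ≤ c ^ 2 →
  (∀ x v, -(ε * g x v v) ≤ Hs Γ b x v v) →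
  (∀ x, T / 2 ≤ b x → b x ≤ 6 * T → c ^ 2 ≤ gs g b x) →
  ∀ (P : E n → Tn n (j + 1)) (u : E n → Tn n j), Prm F G P u → ∀ U W : ℝ, 0 ≤ U → 0 ≤ W →
  (∀ x, T / 2 ≤ b x → b x ≤ 3 * T / 4 → q2 (u x) ≤ U) →
  (∀ x, T / 2 ≤ b x → b x ≤ 6 * T → q2 (P x) ≤ W) →
  ∃ u' : E n → Tn n j, Prm F G P u' ∧ (∀ x, b x ≤ T / 2 → u' x = u x) ∧
    ∀ x, T / 2 ≤ b x → b x ≤ 5 * T → q2 (u' x) ≤ C * (U + (T / c) ^ 2 * W)

/-! ## Mollification of primitives -/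

/-- PLB (60 lines). Poincare lemma with sup bound. Hypotheses: SHmt.
PROOF. `Y x = -x`, `η = - hmt μ Y`: `dY Y s x = (1 - s) • id`, `dY Y 1 x = 0`, `x + Y x = 0` and `pb 0 (μ 0) = 0` (degree `≥ 1`), so `extDeriv η = μ` by HMT.
`‖pb ((1-s) • id) (α.curryLeft (-x))‖ ≤ ‖α‖ ‖x‖` for `s ∈ [0,1]` (`norm_compContinuousLinearMap_le`, `norm_curryLeft`), `‖x + s • Y x‖ ≤ ‖x‖ ≤ r`. -/
def SPlb : Prop := ∀ (n j : ℕ) (μ : E n → Fk n (j + 1)), ContDiff ℝ ∞ μ →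
  (∀ x, extDeriv μ x = 0) → ∃ η : E n → Fk n j, ContDiff ℝ ∞ η ∧ (∀ x, extDeriv η x = μ x) ∧
    ∀ r B : ℝ, (∀ x, ‖x‖ ≤ r → ‖μ x‖ ≤ B) → ∀ x, ‖x‖ ≤ r → ‖η x‖ ≤ r * B

/-- MOA (180 lines). Mollification of a primitive. Hypotheses: SPlb.
PROOF. `φ_ε x = ∫ ρ y • φ (x - ε • y)` is the convolution of `φ` with the smooth function `z ↦ ε^(-n) ρ(z/ε)` of compact support (or differentiate under the integral), so it is
smooth and `fderiv ℝ φ_ε x = ∫ ρ y • fderiv ℝ φ (x - ε • y)`; `extDeriv` is a continuous linear function of the derivative, so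
`extDeriv φ_ε x = μ_ε x := ∫ ρ y • μ (x - ε • y)`. `μ - μ_ε` is smooth and closed (it is `extDeriv (φ - φ_ε)`), and with `r' = max r 1` for `‖x‖ ≤ r'`:
`‖μ x - μ_ε x‖ ≤ ∫ ρ y ‖μ x - μ (x - ε • y)‖ ≤ κ/r'` if `ε ≤ ε0` (uniform continuity of `μ` on `closedBall 0 (r'+1)`, `∫ ρ = 1`, `ρ y = 0` for `‖y‖ > 1`; `μ_ε` depends only on `μ`,
so `ε0` does not depend on `φ`). PLB: `σ` with `extDeriv σ = μ - μ_ε`, `‖σ x‖ ≤ κ` for `‖x‖ ≤ r'`. `φ' = φ_ε + σ`. -/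
def SMoa : Prop := ∀ (n j : ℕ) (ρ : E n → ℝ), Mol ρ → ∀ μ : E n → Fk n (j + 1),
  ContDiff ℝ ∞ μ → ∀ r κ : ℝ, 0 < κ → ∃ ε0 : ℝ, 0 < ε0 ∧ ∀ ε : ℝ, 0 < ε → ε ≤ ε0 →
  ∀ φ : E n → Fk n j, ContDiff ℝ ∞ φ → (∀ x, extDeriv φ x = μ x) →
  ∃ φ' : E n → Fk n j, ContDiff ℝ ∞ φ' ∧ (∀ x, extDeriv φ' x = μ x) ∧
    ∀ x, ‖x‖ ≤ r → ‖φ' x - ∫ y, ρ y • φ (x - ε • y)‖ ≤ κ

/-- MOP (280 lines). From an almost everywhere bound of an `L²` limit of primitives to a smooth primitive with a sup bound. Hypotheses: StSma StDlv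
StCfr TNrm TFmk TBrc SNna SNnk SMoa.
PROOF. `κ₁ ∈ (0,1)` small, to be chosen depending on `κ, a, K, K'`; `K ∪ K' ⊆ closedBall 0 r`, `B = closedBall 0 (r+1)`, `ρ` a mollifier (SMA). The hypothesis gives some primitive,
so by FMK, BRC there is a smooth `μ` with `cp F μ = P`, and every `u` with `Prm F G P u` is `cp F φ` with `φ` smooth and `extDeriv φ = μ` (both sides have the same components;
`eq_zero_of_cp` in `Pool/Agent/Helper62/DSH/Fin.lean`). Choose `ε ∈ (0,1]` such that: (i) `nsq g x α ≤ (1+κ₁) nsq g y α` and `vol g x ≤ (1+κ₁) vol g y` for `x ∈ K ∪ K'`,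
`‖x-y‖ ≤ ε` (NNK, DLV and uniform continuity); (ii) `x - ε • y ∈ O` for `x ∈ K'`, `‖y‖ ≤ 1`; (iii) `∫_{Kε} q2 η vol ≤ ∫_K q2 η vol + κ₁`, `Kε = cthickening ε K` (decreasing
compact sets with intersection `K`; `q2 η` is integrable on compact sets); (iv) `ε ≤ ε0` from MOA for `μ`, `r`, `κ₁`. Then, for `κ₂ > 0` small depending on `ε`, take `u`
with `∫_B q2 (u-η) vol ≤ κ₂`, `u = cp F φ`, `φ'` from MOA, `u' = cp F φ'` (`Prm F G P u'` by BRC), `φ_ε x = ∫ ρ y • φ (x - ε • y)`. For `x ∈ K ∪ K'` by NNA (5), (i):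
`nsq g x (φ_ε x) ≤ ∫ ρ y nsq g x (φ (x - ε • y)) ≤ (1+κ₁) ∫ ρ y q2 (u (x - ε • y)) dy`. (*) SUP BOUND: `x ∈ K'`. `q2 u ≤ (1+κ₁) q2 η + (1+1/κ₁) q2 (u-η)` and `q2 η ≤ a` almost
everywhere on `O` (the map `y ↦ x - ε • y` preserves null sets), so (*) is `≤ (1+κ₁)² a + (1+κ₁)(1+1/κ₁) C_ε ∫_B q2 (u-η)`, with `C_ε = ε^(-n) sup ρ`; the last term is `≤ κ₁` if `κ₂` is
small (`vol` is bounded below on `B`). `L²` BOUND: multiply (*) by `vol g x ≤ (1+κ₁) vol g (x - ε • y)`, integrate over `K`, Tonelli and translation: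
`∫_K nsq g x (φ_ε x) vol ≤ (1+κ₁)² ∫_{Kε} q2 u vol ≤ (1+κ₁)² ((1+κ₁)(∫_K q2 η vol + κ₁) + (1+1/κ₁) κ₂)`. Finally `φ' = φ_ε + (φ' - φ_ε)`, `nn g x (φ' - φ_ε) ≤ C κ₁` for `x ∈ K ∪ K'` (NNK),
`nsq g x (s + t) ≤ (1+κ₁) nsq s + (1+1/κ₁) nsq t`, and `nsq g x (φ' x) = q2 (u' x)`: `(1+1/κ₁) C² κ₁² ≤ 2 C² κ₁`. All errors tend to `0` with `κ₁`. -/
def SMop : Prop := ∀ (n m : ℕ) (g : E n → Bl n) (Γ : E n → Bm n) (F : Fin n → E n → E n)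
  (G : E n → Fin n → Fin n → Fin n → ℝ), IsMet g → IsChr g Γ → Frm g Γ F G →
  ∀ (P : E n → Tn n (m + 2)) (η : E n → Tn n (m + 1)), L2t η →
  (∀ K, IsCompact K → ∀ κ > 0, ∃ u, Prm F G P u ∧ ∫ x in K, q2 (u x - η x) * vol g x ≤ κ) →
  ∀ (O : Set (E n)) (a : ℝ), IsOpen O → 0 ≤ a →
  (∀ᵐ x ∂(volume.restrict O), q2 (η x) ≤ a) → ∀ K K' : Set (E n), IsCompact K → IsCompact K' →
  K' ⊆ O → ∀ κ > 0, ∃ u, Prm F G P u ∧
    ∫ x in K, q2 (u x) * vol g x ≤ (∫ x in K, q2 (η x) * vol g x) + κ ∧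
    ∀ x ∈ K', q2 (u x) ≤ a + κ

end Helper58.QD
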