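import Pool.Agent.Helper58.QD.Defs

/-!
# Project QD, part G: balls, doubling, Nash type inequality, coverings, rank argument on balls

Statements with complete proofs in the docstrings. Every module `M_XXX.lean` proves `theorem hXxx : SXxx` from the
hypotheses named in its row (statements `StXxx` of project LH, `TXxx` of project DSH, `SXxx` of this project; fewer are
fine, more are fine too: tell the list in the given order).
-/

set_option autoImplicit false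

open Set Filter Topology MeasureTheory
open Helper62.LH Helper62.DSH
open scoped ContDiff ENNReal

noncomputable section

namespace Helper58.QD

/-! ## Balls and volume -/

/-- BAL (100 lines). Facts on balls. Hypotheses: StMet StDlc StHr StDlv.
PROOF. `dg g x ·` is continuous (DLC): open. `Ba g x r` is contained in the compact set of HR, on which the continuous
function `vol g` (DLV) is bounded: finite. For `r > 0` it is an open set containing `x` (`dg g x x = 0`), so its Lebesgue measure is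
positive, and `vol g > 0`. The integral: `withDensity_apply` and `ofReal_integral_eq_lintegral_ofReal`
(or `integral_toReal`). Monotone: `measure_mono`, finite. -/
def SBal : Prop := ∀ (n : ℕ) (g : E n → Bl n) (Γ : E n → Bm n), IsMet g → IsChr g Γ → Cpl g →
  ∀ x : E n, (∀ r, IsOpen (Ba g x r)) ∧ (∀ r, mg g (Ba g x r) ≠ ⊤) ∧ (∀ r, 0 < r → 0 < vb g x r) ∧
    (∀ r, ∫ y in Ba g x r, vol g y = vb g x r) ∧ ∀ r s, r ≤ s → vb g x r ≤ vb g x s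

/-- BGV (100 lines). Doubling. Hypotheses: StMet StDlc StMg StNc StVol SBal.
PROOF. (1) For `y ∈ Ba g x r` let `z y = c t` for a metric geodesic `c` from `x` to `y` (MG): `z y ∈ Gt g t x y`, `dg x (z y) = t dg x y < t r`. By
NC `t dg y y' ≤ dg (z y) (z y')`; so `z` is injective on `Ba g x r` (DLC: `dg = 0` implies equal) and its inverse `ψ` on `z '' Ba g x r` satisfies
`dg (ψ w) (ψ w') ≤ (1/t) dg w w'`. VOL: `mg (Ba g x r) = mg (ψ '' (z '' Ba g x r)) ≤ (1/t)^n mg (z '' Ba g x r) ≤ (1/t)^n mg (Ba g x (t r))`. (2) take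
`toReal` (BAL: finite). (3) `Ba g x r ⊆ Ba g y (r + dg x y)`. -/
def SBgv : Prop := ∀ (n : ℕ) (g : E n → Bl n) (Γ : E n → Bm n), IsMet g → IsChr g Γ → Cpl g →
  Sec g Γ →
  (∀ (x : E n) (r t : ℝ), 0 < t → t ≤ 1 →
    mg g (Ba g x r) ≤ ENNReal.ofReal ((1 / t) ^ n) * mg g (Ba g x (t * r))) ∧
  (∀ (x : E n) (r t : ℝ), 0 < t → t ≤ 1 → vb g x r ≤ (1 / t) ^ n * vb g x (t * r)) ∧
  ∀ (x y : E n) (r : ℝ), vb g x r ≤ vb g y (r + dg g x y)

/-- SGB (100 lines). Segment inequality on a ball. Hypotheses: StMet StUsc StSga SBal.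
PROOF. As module SEG of project LH. For `t ∈ [1/2,1]` and `x ∈ Ba g z r`: `Ba g z r ⊆ Ba g x (2r) =: D ⊆ Ba g z (3r)` and `Gt g t x y ⊆ D` for
`y ∈ D` (`dg x z' = t dg x y`), so by SGA `∫_{y ∈ Ba z r} HS h t x y ≤ 2^n ∫_D h ≤ 2^n ∫_{Ba z 3r} h`. For `t ∈ [0,1/2]`: `Gt g t x y = Gt g (1-t) y x`
by the symmetry of the distance, exchange the order of the integrations over `x, y`. Integrate over `t`. Measurability by USC. -/
def SSgb : Prop := ∀ (n : ℕ) (g : E n → Bl n) (Γ : E n → Bm n), IsMet g → IsChr g Γ → Cpl g →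
  Sec g Γ → ∀ h : E n → ℝ, Continuous h → ∀ (z : E n) (r : ℝ), 0 < r →
    ∫⁻ x in Ba g z r, (∫⁻ y in Ba g z r, (∫⁻ t in Icc (0 : ℝ) 1, HS g h t x y) ∂(mg g)) ∂(mg g) ≤
      2 ^ n * mg g (Ba g z r) * ∫⁻ y in Ba g z (3 * r), ENNReal.ofReal (h y) ∂(mg g)

/-- GRD (80 lines). Differences and gradients. Hypotheses: StMg StRgc StIna.
PROOF. Let `c` be a metric geodesic from `x` to `y` (MG) with velocity `v` (RGC), `g(v,v) = d²`, `d = dg x y`. `|(z ∘ c)'| = |Dz(v)| ≤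
√(gs g z (c t)) d` (INA (5)), so `(z y - z x)² ≤ d² ∫_0^1 gs g z (c t) dt` (Cauchy-Schwarz; fundamental theorem for the `C¹` function `z ∘ c` on
`[0,1]`), and `c t ∈ Gt g t x y`. -/
def SGrd : Prop := ∀ (n : ℕ) (g : E n → Bl n) (Γ : E n → Bm n), IsMet g → IsChr g Γ → Cpl g →
  ∀ z : E n → ℝ, ContDiff ℝ ∞ z → ∀ x y,
    ENNReal.ofReal ((z x - z y) ^ 2) ≤ ENNReal.ofReal (dg g x y ^ 2) *
      ∫⁻ t in Icc (0 : ℝ) 1, HS g (gs g z) t x y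

/-- AVJ (220 lines). Averages of differences. Hypotheses: StMet StDlc StUsc StSga StUt SBal SBgv SGrd.
PROOF. `h = gs g z` is continuous (UT), `v x = mg g (Ba g x r)`, `0 < v x < ∞`, a measurable function of `x` (`{(x,y) | dg x y < r}` is open,
`measurable_measure_prodMk_left`). Write `I t = ∫⁻ x, (v x)⁻¹ ∫⁻_{y ∈ Ba x r} HS h t x y`. By GRD the left side is `≤ r² ∫_{t ∈ [0,1]} I t`.
(a) If `dg x y < r` then `Ba y r ⊆ Ba x (2r)`, so by BGV `v y ≤ 2^n v x`, that is `(v x)⁻¹ ≤ 2^n (v y)⁻¹`; so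
`∫⁻ x, (v x)⁻¹ ∫⁻_{y ∈ Ba x r} h y = ∫⁻ y, h y ∫⁻_{x ∈ Ba y r} (v x)⁻¹ ≤ 2^n ∫⁻ h` (Tonelli, symmetry of `dg`). (b) `t ∈ [1/2,1]`: SGA for `x`, `D = Ba g x r`
(`Gt g t x y ⊆ D` for `y ∈ D`): `∫⁻_{y ∈ Ba x r} HS h t x y ≤ 2^n ∫⁻_{Ba x r} h`, so `I t ≤ 4^n ∫⁻ h` by (a). (c) `t ∈ [0,1/2]`: `HS h t x y = HS h (1-t) y x`
(`Gt g t x y = Gt g (1-t) y x`), exchange the integrals and use `(v x)⁻¹ ≤ 2^n (v y)⁻¹`: `I t ≤ 2^n ∫⁻ y, (v y)⁻¹ ∫⁻_{x ∈ Ba y r} HS h (1-t) y x ≤ 8^n ∫⁻ h`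
by (b). So the left side is `≤ r² (4^n + 8^n)/2 ∫⁻ h`. -/
def SAvj : Prop := ∀ (n : ℕ) (g : E n → Bl n) (Γ : E n → Bm n), IsMet g → IsChr g Γ → Cpl g →
  Sec g Γ → ∀ z : E n → ℝ, Cc z → ∀ r : ℝ, 0 < r →
    ∫⁻ x, (mg g (Ba g x r))⁻¹ * (∫⁻ y in Ba g x r, ENNReal.ofReal ((z x - z y) ^ 2) ∂(mg g)) ∂(mg g) ≤
      ENNReal.ofReal (8 ^ n * r ^ 2) * ∫⁻ x, ENNReal.ofReal (gs g z x) ∂(mg g)

/-- NSH (180 lines). Nash type inequality. Hypotheses: StMet StUt SBal SBgv SAvj.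
PROOF. `C = 8^n + 2^(n+1)`. Let `v y = vb g y r > 0`. If `z y ≠ 0` then `dg x y < ρ`, `Ba x ρ ⊆ Ba y (2ρ)`, so by BGV (with `t = r/(2ρ)`)
`v y ≥ (r/(2ρ))^n vb g y (2ρ) ≥ (r/(2ρ))^n vb g x ρ` (*). `z(y)² = v(y)⁻¹ ∫_{y' ∈ Ba y r} z(y)(z(y) - z(y')) + v(y)⁻¹ ∫_{y' ∈ Ba y r} z(y) z(y')`. By Young
the first term is `≤ z(y)²/2 + (1/2) v(y)⁻¹ ∫_{Ba y r} (z(y) - z(y'))²`; the second is `≤ |z(y)| (2ρ/r)^n / vb g x ρ * ∫ |z|` by (*). Integrate over `y` with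
`mg g` and use AVJ: `∫ z² ≤ (1/2) ∫ z² + (1/2) 8^n r² ∫ gs g z + (2ρ/r)^n / vb g x ρ (∫ |z|)²`; all integrals are finite (continuous, compact support).
(Real integrals `∫ · * vol g` and `lintegral` with `mg g` are converted by `withDensity`.) -/
def SNsh : Prop := ∀ (n : ℕ) (g : E n → Bl n) (Γ : E n → Bm n), IsMet g → IsChr g Γ → Cpl g →
  Sec g Γ → ∃ C > 0, ∀ (x : E n) (ρ r : ℝ), 0 < r → r ≤ ρ → ∀ z : E n → ℝ, Cc z →
    (∀ y, z y ≠ 0 → dg g x y < ρ) →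
    ∫ y, z y ^ 2 * vol g y ≤ C * r ^ 2 * (∫ y, gs g z y * vol g y) +
      C * (ρ / r) ^ n / vb g x ρ * (∫ y, |z y| * vol g y) ^ 2

/-! ## Smooth approximations and cut-offs -/

/-- SMD (120 lines). Smooth approximation of a Lipschitz function with small error. Hypotheses: StMet StDlc StDel StSma StSmb.
PROOF. Let `N ≥ 1/ε` be a natural number, `g' x = N² • g x` (a metric, `IsMet`), so `nr g' = N nr g`, `len g' = N len g`, `dg g' = N dg g`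
(`sInf` of the scaled set). `N b` is `1`-Lipschitz for `dg g'`. For `j ∈ ℕ` let `K_j = closedBall 0 (j+1)` and `c j` the number `η` of SMB for `g'`, `N b`,
`K_j`. Take `δ` from DEL and `β' = sm ρ (N b) δ` for a mollifier `ρ` (SMA; smooth, `N b` is continuous by DLC): a point `x` lies in `K_j` for `j = ⌊‖x‖⌋₊`, so
`|β' x - N b x| ≤ 1` and `|Dβ'(v)| ≤ 2 N nr g x v`. `β = β'/N`. (See `Pool/Agent/Helper43/LH/M_SM.lean` for the same construction.) -/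
def SSmd : Prop := ∀ (n : ℕ) (g : E n → Bl n), IsMet g → ∀ b : E n → ℝ,
  (∀ x y, |b x - b y| ≤ dg g x y) → ∀ ε > 0, ∃ β : E n → ℝ, ContDiff ℝ ∞ β ∧
    (∀ x, |β x - b x| ≤ ε) ∧ ∀ x v, |fderiv ℝ β x v| ≤ 2 * nr g x v

/-- CBA (100 lines). Cut-off functions on balls. Hypotheses: StMet StDlc StHr StIna SSmd.
PROOF. `φ s = 1 - Real.smoothTransition (2 s - 1/2)`: smooth, `0 ≤ φ ≤ 1`, `1` for `s ≤ 1/4`, `0` for `s ≥ 3/4`, `|φ'| ≤ C₀` (the derivative is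
continuous and vanishes outside `[1/4,3/4]`). `β` from SMD for `b y = dg g x y`, `ε = (t-s)/8`; `χ y = φ((β y - s)/(t-s))`. If `dg x y < s` then
`β y < s + (t-s)/8`, `χ y = 1`; if `χ y ≠ 0` then `β y < s + 3(t-s)/4`, so `dg x y < s + 7(t-s)/8`; the closure of `{χ ≠ 0}` is contained in
`{dg x y ≤ s + 7(t-s)/8}`, compact (HR). `|Dχ(v)| ≤ (C₀/(t-s)) 2 nr v`, so `gs ≤ (2C₀/(t-s))²` (INA (7)). -/
def SCba : Prop := ∀ (n : ℕ) (g : E n → Bl n), IsMet g → Cpl g → ∃ C > 0,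
  ∀ (x : E n) (s t : ℝ), 0 < s → s < t → ∃ χ : E n → ℝ, Cc χ ∧ (∀ y, 0 ≤ χ y ∧ χ y ≤ 1) ∧
    (∀ y, dg g x y < s → χ y = 1) ∧ tsupport χ ⊆ Ba g x t ∧ ∀ y, gs g χ y ≤ (C / (t - s)) ^ 2

/-- GRW (60 lines). Growth of the exhaustion. Hypotheses: StMet StDlc.
PROOF. `{β ≤ R}` is closed (`β` is continuous) and contained in the compact set `{b ≤ R+1}`. Let `R0` be large, `β x ≥ R0`. If `dg p x < r0` then
`β x ≤ b x + 1 ≤ b p + r0 + 1 < R0`, impossible; so `κ dg p x ≤ b x ≤ β x + 1 ≤ 2 β x`. And `β x ≤ b x + 1 ≤ b p + dg p x + 1`, where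
`dg p x ≥ β x - b p - 1 ≥ R0 - b p - 1 ≥ |b p| + 1`, so `β x ≤ 2 dg p x`. -/
def SGrw : Prop := ∀ (n : ℕ) (g : E n → Bl n) (Γ : E n → Bm n), IsMet g →
  ∀ (p : E n) (b β : E n → ℝ) (κ r0 : ℝ), Bus g Γ p b κ r0 → Lvl g b β →
  (∀ R, IsCompact {x | β x ≤ R}) ∧ (∀ s t, IsCompact (An β s t)) ∧ ∃ R0 : ℝ, 1 ≤ R0 ∧
    ∀ x, R0 ≤ β x → κ / 2 * dg g p x ≤ β x ∧ β x ≤ 2 * dg g p x

/-- COV (180 lines). Coverings of annuli by a bounded number of balls. Hypotheses: StMet SBal SBgv SGrw.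
PROOF. `R ≥ R0` from GRW. For `z ∈ An β R (16R)`: `dg p z ≤ 32R/κ =: D` (and `κ ≤ 2`). Call a finite set `Z ⊆ An β R (16R)` separated if
`dg z z' ≥ δR` for different `z, z' ∈ Z`. Then the balls `Ba z (δR/2)` are disjoint and contained in `Ba p (2D)` (as `δR/2 ≤ D`), and by BGV
`vb z (δR/2) ≥ (δR/(6D))^n vb z (3D) ≥ (δR/(6D))^n vb p (2D)`; so `Z.card ≤ (6D/(δR))^n = (192/(κδ))^n`. Let `L` be the integer part of this number and `Z` a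
separated set of maximal cardinality: every `y ∈ An` has distance `< δR` from some `z ∈ Z` (otherwise add `y`). Multiplicity: the balls `Ba z (δR/2)`
of the `z ∈ Z` with `dg z y < 3δR` are disjoint, contained in `Ba y (4δR)`, and `vb z (δR/2) ≥ 14^(-n) vb z (7δR) ≥ 14^(-n) vb y (4δR)`. (`measure_biUnion_finset`,
`measureReal` of a finite disjoint union.) -/
def SCov : Prop := ∀ (n : ℕ) (g : E n → Bl n) (Γ : E n → Bm n), IsMet g → IsChr g Γ → Cpl g →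
  Sec g Γ → ∀ (p : E n) (b β : E n → ℝ) (κ r0 : ℝ), Bus g Γ p b κ r0 → Lvl g b β →
  ∃ R0 : ℝ, 1 ≤ R0 ∧ ∀ δ : ℝ, 0 < δ → δ ≤ 1 → ∃ L : ℕ, ∀ R, R0 ≤ R → ∃ Z : Finset (E n),
    Z.card ≤ L ∧ (∀ z ∈ Z, z ∈ An β R (16 * R)) ∧
    (∀ y ∈ An β R (16 * R), ∃ z ∈ Z, dg g z y < δ * R) ∧
    ∀ y, (Z.filter (fun z => dg g z y < 3 * (δ * R))).card ≤ 14 ^ n

/-! ## Rank argument on a ball -/

/-- PTB (150 lines). Forms vanishing at `x`, all at once (DSH: module PTJ). Hypotheses: StChr StMg StRgc TNrm TRho.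
PROOF. Let `c` be a metric geodesic from `x` to `y` (MG), `v` its velocity (RGC), `g(v,v) = d²`, `d = dg g x y`. For every `a` the proof of PTJ
(`Pool/Agent/Helper75/DSH/M_PTJ.lean`) gives `q2 (ζ a y) ≤ d² ∫_0^1 NF F G (ζ a) (c t) dt` with this same `c`. Sum over `a`:
`∑ a, q2 (ζ a y) ≤ d² ∫_0^1 h (c t) dt`, and `c t ∈ Gt g t x y`, so `ofReal (h (c t)) ≤ HS g h t x y`. -/
def SPtb : Prop := ∀ (n j : ℕ) (g : E n → Bl n) (Γ : E n → Bm n) (F : Fin n → E n → E n)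
  (G : E n → Fin n → Fin n → Fin n → ℝ), IsMet g → IsChr g Γ → Frm g Γ F G → Cpl g →
  ∀ (M : ℕ) (ζ : Fin M → E n → Tn n j), (∀ a, ContDiff ℝ ∞ (ζ a)) → ∀ h : E n → ℝ,
  Continuous h → (∀ y, ∑ a, NF F G (ζ a) y ≤ h y) → ∀ x y, (∀ a, ζ a x = 0) →
    ENNReal.ofReal (∑ a, q2 (ζ a y)) ≤ ENNReal.ofReal (dg g x y ^ 2) *
      ∫⁻ t in Icc (0 : ℝ) 1, HS g h t x y

/-- RKB (200 lines). Rank argument on a ball (DSH: module RKJ). Hypotheses: StMet StUsc StDlv TNrm TDer SBal SSgb SPtb.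
PROOF. `h = ∑ i, NF F G (θ i)` is continuous (DER: the `cv F G (θ i) · a` are smooth), `B = Ba g z ρ`, `Φ x = ∫⁻_{y ∈ B} ∫⁻_{t ∈ [0,1]} HS g h t x y`. By SGB
`∫⁻_B Φ ≤ 2^n mg B ∫⁻_{Ba z 3ρ} h`, and `0 < mg B < ∞`, so there is `x ∈ B` with `Φ x ≤ 2^n ∫⁻_{Ba z 3ρ} h`. Let `e` be orthonormal with
`ζ a = ∑ i, e a i • θ i`, `ζ a x = 0`. Bessel: for real numbers `v_i`: `∑ a, (∑ i, e a i * v_i)² ≤ ∑ i, v_i²`; with DER (linearity of `cv`) and NRM (1) this gives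
`∑ a, NF F G (ζ a) ≤ h`. PTB and `dg x y < 2ρ`: `ofReal (∑ a, q2 (ζ a y)) ≤ ofReal (4ρ²) ∫⁻ HS g h t x y` for `y ∈ B`. Integrate over `y ∈ B` with `mg g`; convert
to real integrals (continuous functions, bounded sets). -/
def SRkb : Prop := ∀ (n j : ℕ) (g : E n → Bl n) (Γ : E n → Bm n) (F : Fin n → E n → E n)
  (G : E n → Fin n → Fin n → Fin n → ℝ), IsMet g → IsChr g Γ → Frm g Γ F G → Cpl g →
  Sec g Γ → ∀ (z : E n) (ρ : ℝ), 0 < ρ → ∀ (M : ℕ) (θ : Fin M → E n → Tn n j),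
  (∀ i, ContDiff ℝ ∞ (θ i)) → ∃ x ∈ Ba g z ρ, ∀ (M' : ℕ) (e : Fin M' → Fin M → ℝ),
  (∀ a b, ∑ i, e a i * e b i = if a = b then 1 else 0) → (∀ a, ∑ i, e a i • θ i x = 0) →
    ∑ a, ∫ y in Ba g z ρ, q2 (∑ i, e a i • θ i y) * vol g y ≤
      4 * ρ ^ 2 * 2 ^ n * ∫ y in Ba g z (3 * ρ), (∑ i, NF F G (θ i) y) * vol g y

end Helper58.QD
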