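import Pool.Agent.Helper58.QD.Defs

/-!
# Project QD, part L: linear algebra

Statements with complete proofs in the docstrings. `qf S c = ∑ i j, c_i S_ij c_j`.
-/

set_option autoImplicit false

open Set Filter Topology MeasureTheory
open scoped ContDiff ENNReal

noncomputable section

namespace Helper58.QD

/-- symmetric matrix -/
def Sy {M : ℕ} (S : Fin M → Fin M → ℝ) : Prop := ∀ i j, S i j = S j i

/-- orthonormal family -/
def Ort {M N : ℕ} (f : Fin N → Fin M → ℝ) : Prop :=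
  ∀ a b, ∑ i, f a i * f b i = if a = b then 1 else 0

/-- QUF (150 lines). The infimum of a quadratic form over the cosets of a subspace is a quadratic form.
PROOF. `Q_i = inf {q (u_i + d) (u_i + d) | d ∈ D} ≥ 0`; choose `d_i^k ∈ D` with `q(u_i + d_i^k) ≤ Q_i + 1/(k+1)²` (`q(x)` for `q x x`), `x_i^k = u_i + d_i^k`.
For `d ∈ D` and real `t`: `q(x_i^k + t d) ≥ Q_i ≥ q(x_i^k) - 1/(k+1)²`, so `2 t q(x_i^k,d) + t² q(d) ≥ - 1/(k+1)²` for all `t`, that is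
`|q(x_i^k,d)| ≤ √q(d)/(k+1)`. The numbers `q(x_i^k,x_j^k)` are bounded (Cauchy-Schwarz), so for a subsequence of `k` they converge to numbers `S_ij` for all
`i, j` (compactness; or `Ultrafilter`/`Filter.Tendsto` along a subsequence). Symmetric, `qf S c = lim q(∑ c_i x_i^k) ≥ 0`. Let `d ∈ D`:
`∑ c_i u_i + d = x + d'`, `x = ∑ c_i x_i^k`, `d' ∈ D`, and `q(x + d') ≥ q(x) - 2 |q(x,d')| + q(d') ≥ q(x) - (∑ |c_i|/(k+1))²` (as `|q(x,d')| ≤ ∑ |c_i| √q(d')/(k+1)`);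
`k → ∞`: `q(∑ c_i u_i + d) ≥ qf S c`. Last claim: `∑ c_i x_i^k = ∑ c_i u_i + ∑ c_i d_i^k` with `k` large. -/
def SQuf : Prop := ∀ (M : ℕ) (V : Type) [AddCommGroup V] [Module ℝ V] (q : V → V → ℝ),
  (∀ x y, q x y = q y x) → (∀ x y z, q (x + y) z = q x z + q y z) →
  (∀ (c : ℝ) x y, q (c • x) y = c * q x y) → (∀ x, 0 ≤ q x x) →
  ∀ (D : Submodule ℝ V) (u : Fin M → V), ∃ S : Fin M → Fin M → ℝ, Sy S ∧
    (∀ c, 0 ≤ qf S c) ∧
    (∀ c : Fin M → ℝ, ∀ d ∈ D, qf S c ≤ q (∑ i, c i • u i + d) (∑ i, c i • u i + d)) ∧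
    ∀ c : Fin M → ℝ, ∀ κ > 0, ∃ d ∈ D, q (∑ i, c i • u i + d) (∑ i, c i • u i + d) ≤ qf S c + κ

/-- DET (180 lines). Determinants of forms.
PROOF. (2) `Matrix.of S'` is positive definite; there are `e_a` orthonormal for `S'` (spectral theorem: `e_a = v_a/√λ_a` with orthonormal eigenvectors `v_a`
of `S'` and eigenvalues `λ_a > 0`; `Matrix.IsHermitian.spectral_theorem`, `Matrix.IsHermitian.eigenvectorBasis`). With `P` = matrix with rows `e_a`: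
`P S' Pᵀ = 1`, so `(det P)² det S' = 1`, and `B = P S Pᵀ` is positive semidefinite with `det B = det S/det S' ≥ K^(-M)` (note `det S' > 0`), `tr B = ∑ a, qf S (e_a)`.
Eigenvalues `μ_a ≥ 0` of `B`: `det B = ∏ μ_a ≤ ((∑ μ_a)/M)^M` (`Real.geom_mean_le_arith_mean_weighted`;
`Matrix.IsHermitian.det_eq_prod_eigenvalues`, `Matrix.IsHermitian.trace_eq_sum_eigenvalues`). So `tr B ≥ M/K`.
(1) If `qf S' c > 0` for all `c ≠ 0` take `e_a`, `B` as in (2): `B ≤ 1`, so its eigenvalues are in `[0,1]` and `det B ≤ 1`, `det S = det B det S' ≤ det S'`.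
Otherwise there is `c ≠ 0` with `qf S' c = 0` (as `0 ≤ qf S ≤ qf S'`), so `qf S c = 0`, and `S c = 0` because `S` is positive semidefinite
(`Matrix.PosSemidef` lemma or Cauchy-Schwarz), `det S = 0`; and `det S' ≥ 0`. (`M = 0`: both determinants are `1`.)
(3) The eigenvalues of `S` are `≥ 1`. -/
def SDet : Prop := ∀ M : ℕ,
  (∀ S S' : Fin M → Fin M → ℝ, Sy S → Sy S' → (∀ c, 0 ≤ qf S c) → (∀ c, qf S c ≤ qf S' c) →
    (Matrix.of S).det ≤ (Matrix.of S').det) ∧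
  (∀ (S S' : Fin M → Fin M → ℝ) (K : ℝ), 1 ≤ M → 0 < K → Sy S → Sy S' → (∀ c, 0 ≤ qf S c) →
    (∀ c, c ≠ 0 → 0 < qf S' c) → (Matrix.of S').det ≤ K ^ M * (Matrix.of S).det →
    ∃ e : Fin M → Fin M → ℝ,
      (∀ a b, ∑ k, ∑ l, e a k * S' k l * e b l = if a = b then 1 else 0) ∧
      M / K ≤ ∑ a, qf S (e a)) ∧
  ∀ S : Fin M → Fin M → ℝ, Sy S → (∀ c, ∑ i, c i ^ 2 ≤ qf S c) → 1 ≤ (Matrix.of S).det

/-- PIG (120 lines). Pigeonhole for the scales. Hypotheses: SDet.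
PROOF. `A_i, D_i, H_i` for `A i, D i, H i`, and `det` of `Matrix.of`. Monotonicity and `det (C • S) = C^M det S` (`Matrix.det_smul`) give, for `i ≥ i0`:
`det D_i ≤ C^M det A_i` and `det H_i ≤ C^M det D_i` (the forms are `≥ 0`). Claim: for every `i1` there is `i ≥ max i0 i1` with
`det D_i < (2C)^M det A_{i+1}`. Otherwise `det A_i ≥ C^(-M) det D_i ≥ 2^M det A_{i+1} ≥ 2 det A_{i+1}` for all `i ≥ i' = max i0 i1`, so
`det A_{i'+k} ≤ 2^(-k) det A_{i'}`, against `det A_i ≥ 1` (DET (3)). For this `i`: `det H_i ≤ C^M det D_i ≤ (2C²)^M det A_{i+1}`; DET (2) for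
`S = A_{i+1}`, `S' = H_i` (`qf H_i c ≥ qf A_{i+1} c ≥ ∑ c² > 0`), `K = 2C²`. -/
def SPig : Prop := ∀ (M : ℕ) (C : ℝ), 1 ≤ M → 1 ≤ C → ∀ (A D H : ℕ → Fin M → Fin M → ℝ) (i0 : ℕ),
  (∀ i, Sy (A i) ∧ Sy (D i) ∧ Sy (H i)) → (∀ i c, 0 ≤ qf (A i) c ∧ 0 ≤ qf (D i) c ∧ 0 ≤ qf (H i) c) →
  (∀ i, i0 ≤ i → ∀ c, ∑ k, c k ^ 2 ≤ qf (A i) c) →
  (∀ i, i0 ≤ i → ∀ c, qf (D i) c ≤ C * qf (A i) c) →
  (∀ i, i0 ≤ i → ∀ c, qf (H i) c ≤ C * qf (D i) c) →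
  (∀ i, i0 ≤ i → ∀ c, qf (A (i + 1)) c ≤ qf (H i) c) →
  ∀ i1, ∃ i, i0 ≤ i ∧ i1 ≤ i ∧ ∃ e : Fin M → Fin M → ℝ,
    (∀ a b, ∑ k, ∑ l, e a k * H i k l * e b l = if a = b then 1 else 0) ∧
    M / (2 * C ^ 2) ≤ ∑ a, qf (A (i + 1)) (e a)

/-- TRC (120 lines). Trace of a form on a subspace.
PROOF. In `EuclideanSpace ℝ (Fin M)`: let `f` be an orthonormal basis of `ker L` (`stdOrthonormalBasis`, `M' = dim ker L ≤ M`) and `f'` an orthonormal basis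
of its orthogonal complement, of dimension `M - M' = rank L ≤ N`. Together they are an orthonormal basis, so
`∑ i, B i i = ∑ a, qf B (f a) + ∑ a, qf B (f' a)` (the trace `∑ i, B i i = ∑ k l, B k l δ_kl`, and `∑ a, h_a k * h_a l = δ_kl` for an orthonormal basis `h`), and
`qf B (f' a) ≤ 1`. -/
def STrc : Prop := ∀ (M N : ℕ) (B : Fin M → Fin M → ℝ), Sy B → (∀ c, qf B c ≤ ∑ i, c i ^ 2) →
  ∀ L : (Fin M → ℝ) →ₗ[ℝ] (Fin N → ℝ), ∃ (M' : ℕ) (f : Fin M' → Fin M → ℝ), M' ≤ M ∧ Ort f ∧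
    (∀ a, L (f a) = 0) ∧ (∑ i, B i i) - N ≤ ∑ a, qf B (f a)

end Helper58.QD
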