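import Pool.Agent.Helper58.QD.StG

/-!
# Project QD, part M: local Bochner formula, Moser iteration, mean value inequality

Statements with complete proofs in the docstrings. `δ = dlF F G (fun _ => 0)`, `d = dF F G`, `∇_a u = cv F G u x a`, `D_a = fderiv ℝ · x (F a x)`,
`⟨s,t⟩ = ipt s t`. With the orthonormal frame `F`: `ip g x α β = ∑ a, α (F a x) β (F a x)` (TR), so `gs g z x = ∑ a, (D_a z)²`.
-/

set_option autoImplicit false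

open Set Filter Topology MeasureTheory
open Helper62.LH Helper62.DSH
open scoped ContDiff ENNReal

noncomputable section

namespace Helper58.QD

/-! ## Local Bochner formula -/

/-- BOL (100 lines). Integrated Bochner formula. Hypotheses: StChr TSqd TDer TDvg TPtw.
PROOF. DVG with the function `f = 0` (`wt g (fun _ => 0) = vol g`) for `Y = YB F G (fun _ => 0) v` (smooth, compact support), and PTW (`Hs Γ` of a
constant function is `0`, its derivative is `0`): `∫ (q2 (δv) - ∑ a b, ⟨ι_a ∇_b v, ι_b ∇_a v⟩ - Wz(v)) vol = 0`. By SQD (3) for `p a = ∇_a v` (alternating, DER)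
the double sum is `NF v - q2 (dv)`. All functions are continuous with compact support. (Compare `Pool/Agent/Helper70/DSH/M_BOJ.lean`.) -/
def SBol : Prop := ∀ (n m : ℕ) (g : E n → Bl n) (Γ : E n → Bm n) (F : Fin n → E n → E n)
  (G : E n → Fin n → Fin n → Fin n → ℝ), IsMet g → IsChr g Γ → Frm g Γ F G →
  ∀ v : E n → Tn n (m + 1), ContDiff ℝ ∞ v → Al v → HasCompactSupport v →
    ∫ x, (NF F G v x + Wz (Rc g Γ F x) (v x)) * vol g x =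
      ∫ x, (q2 (dF F G v x) + q2 (dlF F G (fun _ => 0) v x)) * vol g x

/-- BOP (180 lines). The formula tested with a function. Hypotheses: TNrm TDer TLbz SBol.
PROOF. Let `ξ` be smooth with compact support, `ξ = 1` in a neighbourhood of `tsupport φ`. BOL for `v₊ = ξu + φu` and `v₋ = ξu - φu`; subtract. By
bilinearity (`q2 (s+t) - q2 (s-t) = 4⟨s,t⟩`, linearity of `cv`, `dF`, `dlF`: DER) and `Wz(c • t) = c² Wz t` the difference of the left sides is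
`4 ∫ (∑ a, ⟨∇_a(ξu), ∇_a(φu)⟩ + ξφ Wz(u)) vol`, of the right sides `4 ∫ (⟨d(ξu), d(φu)⟩ + ⟨δ(ξu), δ(φu)⟩) vol`. In a neighbourhood of `tsupport φ`: `ξu = u`; outside
`tsupport φ` all derivatives of `φu` vanish. `∇_a(φu) = φ ∇_a u + (D_aφ) u` (LBZ (2)). -/
def SBop : Prop := ∀ (n m : ℕ) (g : E n → Bl n) (Γ : E n → Bm n) (F : Fin n → E n → E n)
  (G : E n → Fin n → Fin n → Fin n → ℝ), IsMet g → IsChr g Γ → Frm g Γ F G →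
  ∀ u : E n → Tn n (m + 1), ContDiff ℝ ∞ u → Al u → ∀ φ, Cc φ →
    ∫ x, (φ x * NF F G u x + (∑ a, fderiv ℝ φ x (F a x) * ipt (cv F G u x a) (u x)) +
        φ x * Wz (Rc g Γ F x) (u x)) * vol g x =
      ∫ x, (ipt (dF F G u x) (dF F G (fun y => φ y • u y) x) +
        ipt (dlF F G (fun _ => 0) u x) (dlF F G (fun _ => 0) (fun y => φ y • u y) x)) * vol g x

/-- SUP (180 lines). Harmonic forms are subsolutions. Hypotheses: StTr StDlv TNrm TDer TLbz SBop.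
PROOF. `w = q2 P + ε` is smooth and `≥ ε`, `F(w) = tau T w ^ p` is smooth with derivative `F'(w) = p tau T w ^ (p-1) (T/(T+w))²` (for `p = 0` it is `0`);
`φ = χ² F(w)`. BOP for `P`: the right side is `0`. `D_a w = 2⟨∇_a P, P⟩` (LBZ (1)), `D_aφ = 2χ(D_aχ)F + χ² F' D_a w`. So
`∫ (φ NF P + χF ∑ a, D_aχ D_a w + (1/2) χ² F' gs w) vol = - ∫ φ Wz(P) vol ≤ lam ∫ φ q2 P vol ≤ lam ∫ φ w vol` (`WLo`, `φ ≥ 0`, and `φ = 0` outside `S`).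
`|∑ a, D_aχ D_a w| ≤ √(gs χ) √(gs w)`, and `gs w = ∑ a, 4⟨∇_a P, P⟩² ≤ 4 q2 P NF P ≤ 4 w NF P`, that is `NF P ≥ gs w/(4w)`. -/
def SSup : Prop := ∀ (n m : ℕ) (g : E n → Bl n) (Γ : E n → Bm n) (F : Fin n → E n → E n)
  (G : E n → Fin n → Fin n → Fin n → ℝ), IsMet g → IsChr g Γ → Frm g Γ F G →
  ∀ P : E n → Tn n (m + 1), ContDiff ℝ ∞ P → Al P → (∀ x, dF F G P x = 0) →
  (∀ x, dlF F G (fun _ => 0) P x = 0) → ∀ (S : Set (E n)) (lam : ℝ), 0 ≤ lam →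
  WLo g Γ F m S lam → ∀ (ε T : ℝ) (p : ℕ) (χ : E n → ℝ), 0 < ε → 0 < T → Cc χ →
  tsupport χ ⊆ S → SubI g lam (fun x => q2 (P x) + ε) T p χ 0

/-- SUE (250 lines). Minimal primitives are limits of subsolutions. Hypotheses: StTr StDlv TNrm TDer TLbz TAdj SBol SBop.
PROOF. `K = tsupport χ`, `χ₁` smooth with compact support in `S`, `0 ≤ χ₁ ≤ 1`, `χ₁ = 1` on `K`, `K₁ = tsupport χ₁`. At points of `S` `ψ = 0` is a minimum, so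
`Dψ = 0` and `dlF F G ψ u = δu`. Let `κ' ∈ (0,1]` and `u` from `ApJ` for `K₁`, `κ'`. (1) BOL for `v = χ₁u`, LBZ (2), (3), NRM, `WLo` (`v` vanishes outside `S`):
`∫_K NF u vol ≤ ∫ NF v vol ≤ C ∫_{K₁} (q2 (du) + q2 (δu) + q2 u) vol ≤ C₀` with `C, C₀` independent of `κ'` (`q2 (du) ≤ 2 q2 P + 2 q2 (du - P)`,
`q2 u ≤ 2 q2 η + 2 q2 (u-η)`; on `K` `χ₁ = 1` is a maximum, so `Dχ₁ = 0`, `NF v = NF u`). (2) `w = q2 u + ε`, `φ = χ² F(w)` as in SUP; BOP and the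
computation of SUP give `SubI` with error `e = ∫ (⟨du, d(φu)⟩ + ⟨δu, δ(φu)⟩) vol`. By ADJ (`f = 0`, `P`, `β = φu`) `∫ ⟨P, d(φu)⟩ vol = - ∫ ⟨δP, φu⟩ vol = 0`, so
`e = ∫ (⟨du - P, d(φu)⟩ + ⟨δu, δ(φu)⟩) vol ≤ √κ' (‖d(φu)‖ + ‖δ(φu)‖)` (norms of `L²(K, vol)`, Cauchy-Schwarz). (3) `q2 (d(φu)) ≤ 2φ² q2 (du) + 2(m+2) gs φ q2 u`,
`gs φ ≤ 8χ²F² gs χ + 2χ⁴F'² gs w`, `F ≤ T^p`, `F'(w) w ≤ p F ≤ p T^p` (as `s (T/(T+s))² ≤ tau T s`), `gs w ≤ 4 w NF u`, so `F'² gs w q2 u ≤ 4 p² T^(2p) NF u`; the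
same for `δ(φu)`. By (1) `‖d(φu)‖² + ‖δ(φu)‖² ≤ C₁`, independent of `κ'`. Choose `κ' ≤ κ` with `2 √(κ' C₁) ≤ κ`. -/
def SSue : Prop := ∀ (n m : ℕ) (g : E n → Bl n) (Γ : E n → Bm n) (F : Fin n → E n → E n)
  (G : E n → Fin n → Fin n → Fin n → ℝ), IsMet g → IsChr g Γ → Frm g Γ F G →
  ∀ (ψ : E n → ℝ) (P : E n → Tn n (m + 2)) (η : E n → Tn n (m + 1)), ContDiff ℝ ∞ ψ →
  (∀ x, 0 ≤ ψ x) → ContDiff ℝ ∞ P → Al P → (∀ x, dlF F G (fun _ => 0) P x = 0) → L2t η →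
  ApJ g F G ψ P η → ∀ (S : Set (E n)) (lam : ℝ), IsOpen S → 0 ≤ lam → WLo g Γ F m S lam →
  (∀ x ∈ S, ψ x = 0) → ∀ (χ : E n → ℝ), Cc χ → tsupport χ ⊆ S →
  ∀ (ε T κ : ℝ) (p : ℕ), 0 < ε → 0 < T → 0 < κ →
  ∃ u : E n → Tn n (m + 1), ContDiff ℝ ∞ u ∧ Al u ∧
    ∫ x in tsupport χ, q2 (u x - η x) * vol g x ≤ κ ∧
    SubI g lam (fun x => q2 (u x) + ε) T p χ κ

/-! ## Energy and Nash inequality combined -/

/-- CMI (200 lines). Hypotheses: StIna StUt StDlv SBal SNsh.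
PROOF. `q = 2p - 1`, `F = tau T w ^ q`, `F' = q tau T w ^ (q-1) (T/(T+w))²`; `0 < tau T w ≤ w`, `w (T/(T+w))² ≤ tau T w`, so `F' w ≤ q F`. Let `A = ∫ χ² F gs w/w`,
`B = ∫ χ² F' gs w` (all integrals with `vol`). Young: `|χ| F √(gs χ) √(gs w) ≤ χ² F gs w/(8w) + 2 F gs χ w` (on `tsupport χ`, as `gs χ = 0` outside), so
`SubI` gives `A/8 + B/2 ≤ D := 2 ∫ F gs χ w + lam ∫ χ² F w + e`. `z = χ √(F w)` is smooth with compact support and `gs z ≤ 2 F w gs χ + 2χ² gs √(Fw)`,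
`gs √(Fw) = (F' w + F)² gs w/(4Fw) ≤ (1/2)(F'² w/F + F/w) gs w ≤ (1/2)(q F' + F/w) gs w`. So
`∫ gs z ≤ 2 ∫ F w gs χ + q B + A ≤ 2 ∫ F w gs χ + (2q + 8) D ≤ 40 p ((G0 + lam) ∫_{tsupport χ} F w + e)` (check: `2 + 2(2q+8) = 8p + 14 ≤ 40p`, `2q + 8 = 4p + 6 ≤ 40p`).
NSH for `z` and `ρ`, `r`: `z² = χ² F w` and `|z| ≤ √(F w) = tau^(p-1) √(tau w) ≤ tau T w ^ (p-1) w` on `tsupport χ`. `K = 40 C + 1`. -/
def SCmi : Prop := ∀ (n : ℕ) (g : E n → Bl n) (Γ : E n → Bm n), IsMet g → IsChr g Γ → Cpl g →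
  Sec g Γ → ∃ K : ℝ, 1 ≤ K ∧ ∀ (x : E n) (ρ r lam G0 T e : ℝ) (p : ℕ) (w χ : E n → ℝ), 0 < r →
  r ≤ ρ → 0 ≤ lam → 0 < T → 0 ≤ e → 1 ≤ p → ContDiff ℝ ∞ w → (∀ y, 0 < w y) → Cc χ →
  (∀ y, 0 ≤ χ y ∧ χ y ≤ 1) → tsupport χ ⊆ Ba g x ρ → (∀ y, gs g χ y ≤ G0) →
  SubI g lam w T (2 * p - 1) χ e →
    ∫ y, χ y ^ 2 * tau T (w y) ^ (2 * p - 1) * w y * vol g y ≤
      K * r ^ 2 * p * ((G0 + lam) *
        (∫ y in tsupport χ, tau T (w y) ^ (2 * p - 1) * w y * vol g y) + e) +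
      K * (ρ / r) ^ n / vb g x ρ *
        (∫ y in tsupport χ, tau T (w y) ^ (p - 1) * w y * vol g y) ^ 2

/-- ITM (220 lines). Moser iteration. Hypotheses: SBal.
PROOF. `v = vb g x ρ > 0`, `I_p(s) = (1/v) ∫_{Ba x s} tau T w ^ (p-1) w vol` (finite: `tau ≤ T`). (1) `ε₀ = 2^(-n-1)`. In `Cmb` take `r = (t-s) √(ε₀/(K p)) ≤ ρ`
(`K ≥ 1`, `p ≥ 1`): `I_{2p}(s) ≤ ε₀ I_{2p}(t) + K (Kp/ε₀)^(n/2) (ρ/(t-s))^n I_p(t)²`. (2) Let `0 < s < t₀ ≤ ρ`, `t_i = s + (t₀-s)(1-2^(-i))` for `i ≥ 1`, `t_0 = s`;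
apply (1) to `t_i < t_{i+1}` (difference `(t₀-s) 2^(-i-1)`) and iterate: `I_{2p}(s) ≤ ε₀^N I_{2p}(t₀) + ∑_{i<N} ε₀^i K(Kp/ε₀)^(n/2) (2^(i+1) ρ/(t₀-s))^n I_p(t₀)²`;
`∑ (2^n ε₀)^i ≤ 2`; let `N → ∞`: `I_{2p}(s) ≤ C₁ p^n (ρ/(t₀-s))^n I_p(t₀)²`, `C₁ = C₁(n,K)`. (3) `s_k = ρ(1/2 + 2^(-k-1))`, `p = 2^k`, `b_k = I_{2^k}(s_k)`:
`b_{k+1} ≤ C₁ 2^(kn) 2^((k+2)n) b_k² ≤ C₂^(k+1) b_k²` (`C₂ ≥ 1`), so by induction `b_k ≤ C₂^(2·2^k) b_0^(2^k)` (use `b_k C₂^(k+2) ≤ (b_0 C₂^2)^(2^k)`).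
(4) Let `C₃ = C₂²`, `lam > C₃ b_0`. On `{y ∈ Ba x (ρ/2) | tau T (w y) ≥ lam}`: `tau^(2^k-1) w ≥ lam^(2^k)`, so its measure (for `vol`) is `≤ v (C₃ b_0/lam)^(2^k) → 0`. So
`tau T (w y) ≤ C₃ b_0` for almost every `y ∈ Ba x (ρ/2)`, for all natural numbers `T ≥ 1`; `tau T s → s` as `T → ∞`. `b_0 = (1/v) ∫_{Ba x ρ} w vol`. -/
def SItm : Prop := ∀ (n : ℕ) (K : ℝ), 1 ≤ K → ∃ C > 0, ∀ (g : E n → Bl n) (Γ : E n → Bm n),
  IsMet g → IsChr g Γ → Cpl g → ∀ (x : E n) (ρ : ℝ) (w : E n → ℝ), 0 < ρ → (∀ y, 0 ≤ w y) →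
  AEStronglyMeasurable w volume → IntegrableOn (fun y => w y * vol g y) (Ba g x ρ) →
  Cmb g x ρ K w →
    ∀ᵐ y ∂(volume.restrict (Ba g x (ρ / 2))),
      w y ≤ C / vb g x ρ * ∫ z in Ba g x ρ, w z * vol g z

/-! ## Mean value inequalities -/

/-- MVP (120 lines). Mean value inequality for harmonic forms. Hypotheses: StDlv TNrm SBal SCba SCmi SItm SSup.
PROOF. `C₁` from CBA, `K` from CMI, `K' = K (C₁² + A + 1)`. Let `ε > 0`, `w = q2 P + ε`. `Cmb g x ρ K' w`: for `T, p, s, t, r` take `χ` from CBA (`s < t`), `SubI` from SUP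
with `S = Ba g x ρ`, `lam = A/ρ²`, exponent `2p-1`, and CMI with `e = 0`, `G0 = (C₁/(t-s))²`; `lam ≤ A/(t-s)²`; `χ = 1` on `Ba x s`, `tsupport χ ⊆ Ba x t`, integrands are
nonnegative. ITM: the inequality for almost every `y ∈ Ba x (ρ/2)`; `w` is continuous, so it holds at `x` (an open set of points with the reverse
inequality would have positive measure). `ε → 0`: `q2 (P x) ≤ C/vb ∫ (q2 P + ε) vol = C/vb ∫ q2 P vol + C ε` (BAL). -/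
def SMvp : Prop := ∀ (n m : ℕ) (g : E n → Bl n) (Γ : E n → Bm n) (F : Fin n → E n → E n)
  (G : E n → Fin n → Fin n → Fin n → ℝ), IsMet g → IsChr g Γ → Frm g Γ F G → Cpl g →
  Sec g Γ → ∀ A : ℝ, 0 ≤ A → ∃ C > 0, ∀ P : E n → Tn n (m + 1), ContDiff ℝ ∞ P → Al P →
  (∀ x, dF F G P x = 0) → (∀ x, dlF F G (fun _ => 0) P x = 0) → ∀ (x : E n) (ρ : ℝ), 0 < ρ →
  WLo g Γ F m (Ba g x ρ) (A / ρ ^ 2) →
    q2 (P x) ≤ C / vb g x ρ * ∫ y in Ba g x ρ, q2 (P y) * vol g y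

/-- MVE (200 lines). Mean value inequality for minimal primitives. Hypotheses: StDlv TNrm SBal SCba SCmi SItm SSue.
PROOF. `w = q2 ∘ η`; `Cmb g x ρ K' w` with `K'` as in MVP: fix `T, p, s, t, r`, `χ` from CBA, `K₀ = tsupport χ`. For `k ≥ 1` let `u_k` be from SUE with `S = Ba g x ρ`,
`lam = A/ρ²`, `ε = κ = 1/k`, exponent `2p-1`, `w_k = q2 u_k + 1/k`; CMI with `e = 1/k`. Limit `k → ∞`: the functions `f₁(s) = tau T s ^ (2p-1) s`, `f₂(s) = tau T s ^ (p-1) s`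
are Lipschitz on `[0,∞)` (`0 ≤ tau' ≤ 1`, `s tau' ≤ tau ≤ T`), and `∫_{K₀} |w_k - w| vol → 0`, because `|q2 u - q2 η| ≤ √(q2 (u-η)) (√q2 u + √q2 η)` (NRM) and `η` is square
integrable on the compact set `K₀`. So the inequality of CMI holds for `w` with `e = 0`. `χ = 1` on `Ba x s`, `K₀ ⊆ Ba x t`. ITM (`w` is almost everywhere strongly
measurable and integrable on bounded sets: `L2t η`). -/
def SMve : Prop := ∀ (n m : ℕ) (g : E n → Bl n) (Γ : E n → Bm n) (F : Fin n → E n → E n)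
  (G : E n → Fin n → Fin n → Fin n → ℝ), IsMet g → IsChr g Γ → Frm g Γ F G → Cpl g →
  Sec g Γ → ∀ A : ℝ, 0 ≤ A → ∃ C > 0, ∀ (ψ : E n → ℝ) (P : E n → Tn n (m + 2))
  (η : E n → Tn n (m + 1)), ContDiff ℝ ∞ ψ → (∀ x, 0 ≤ ψ x) → ContDiff ℝ ∞ P → Al P →
  (∀ x, dlF F G (fun _ => 0) P x = 0) → L2t η → ApJ g F G ψ P η → ∀ (x : E n) (ρ : ℝ), 0 < ρ →
  WLo g Γ F m (Ba g x ρ) (A / ρ ^ 2) → (∀ y ∈ Ba g x ρ, ψ y = 0) →
    ∀ᵐ y ∂(volume.restrict (Ba g x (ρ / 2))),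
      q2 (η y) ≤ C / vb g x ρ * ∫ z in Ba g x ρ, q2 (η z) * vol g z

end Helper58.QD
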