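import Pool.Agent.Helper58.QD.StF
import Pool.Agent.Helper58.QD.StL

/-!
# Project QD, part S: minimal primitives on annuli

Statements with complete proofs in the docstrings. `P` is an `L²` harmonic form of degree `m + 2` (component family), the primitives have degree `m + 1`. `An β s t =
{s ≤ β ≤ t}`, `Prm F G P u`: `u` is a smooth primitive of `P`.
-/

set_option autoImplicit false

open Set Filter Topology MeasureTheory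
open Helper62.LH Helper62.DSH
open scoped ContDiff ENNReal

noncomputable section

namespace Helper58.QD

/-- quadratic decay of the negative part of the Weitzenboeck form of degree `m + 1` -/
def WDec {n : ℕ} (g : E n → Bl n) (Γ : E n → Bm n) (F : Fin n → E n → E n) (m : ℕ) (p : E n)
    (A : ℝ) : Prop :=
  ∀ x, ∀ t : Tn n (m + 1), Altn t → -(A / (1 + dg g p x ^ 2) * q2 t) ≤ Wz (Rc g Γ F x) t

/-- `S` is the matrix of the form `c ↦ inf ∫_{An β s t} |u|²`, `u` a primitive of `∑ c_i P_i` -/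
structure QS {n m M : ℕ} (g : E n → Bl n) (F : Fin n → E n → E n)
    (G : E n → Fin n → Fin n → Fin n → ℝ) (β : E n → ℝ) (P : Fin M → E n → Tn n (m + 1)) (s t : ℝ)
    (S : Fin M → Fin M → ℝ) : Prop where
  sym : Sy S
  nonneg : ∀ c, 0 ≤ qf S c
  low : ∀ (c : Fin M → ℝ) (u : E n → Tn n m), Prm F G (fun x => ∑ i, c i • P i x) u →
    qf S c ≤ ∫ x in An β s t, q2 (u x) * vol g x
  app : ∀ (c : Fin M → ℝ) (κ : ℝ), 0 < κ → ∃ u : E n → Tn n m,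
    Prm F G (fun x => ∑ i, c i • P i x) u ∧
      ∫ x in An β s t, q2 (u x) * vol g x ≤ qf S c + κ

/-! ## Weights and minimal primitives -/

/-- WTE (150 lines). Weights concentrated on an annulus. Hypotheses: StCvx StDlv.
PROOF. `Z = An β s t`, `vol g` is continuous and positive (DLV), `V_j = ∫_{β ≤ t+2+j} h vol`. `Φ` from CVX with `R = t`, `A_j = log (1 + V_j) + j`;
`ψ₀ x = expNegInvGlue (β x - t) + Φ (β x) + expNegInvGlue (s - β x)` (`Φ τ` is `0` for `τ ≤ t`): smooth, `≥ 0`, equal to `0` exactly on `Z`. `h e^{-ψ₀} vol` is integrable: `{β ≤ t+1}` is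
compact, and on `{t+1+j ≤ β ≤ t+2+j}` `ψ₀ ≥ Φ (t+1+j) ≥ A_j`, so the integral there is `≤ V_j e^{-A_j} ≤ e^{-j}`. `ψ = N ψ₀`, `N ≥ 1` a natural number:
`h e^{-Nψ₀} vol → 1_Z h vol` pointwise as `N → ∞`, dominated by `h e^{-ψ₀} vol`, so `∫ h wt g ψ → ∫_Z h vol`. -/
def SWte : Prop := ∀ (n : ℕ) (g : E n → Bl n) (Γ : E n → Bm n), IsMet g → IsChr g Γ →
  ∀ β : E n → ℝ, ContDiff ℝ ∞ β → (∀ R, IsCompact {x | β x ≤ R}) → ∀ h : E n → ℝ, Continuous h →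
  (∀ x, 0 ≤ h x) → ∀ s t κ : ℝ, 0 < κ → ∃ ψ : E n → ℝ, ContDiff ℝ ∞ ψ ∧ (∀ x, 0 ≤ ψ x) ∧
    (∀ x ∈ An β s t, ψ x = 0) ∧ Integrable (fun x => h x * wt g ψ x) ∧
    ∫ x, h x * wt g ψ x ≤ (∫ x in An β s t, h x * vol g x) + κ

/-- MIN (180 lines). Minimal primitives. Hypotheses: SGrw StDlv TNrm TDer THpj TFrj TDdz SWte.
PROOF. As in module THJ of project DSH (`Pool/Agent/*/DSH/M_THJ.lean`). `h = q2 ∘ u0` (continuous), `ψ` from WTE (`{β ≤ R}` is compact: GRW), `w = wt g ψ`. HPJ with `A` = alternating tensors,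
`S = {dF β' | β' : E n → Tn n m smooth, alternating, compact support}` (a subspace, DER), `u0`: `η` with `∫ q2 η w ≤ ∫ q2 u0 w ≤ ∫_{An} q2 u0 vol + κ`; on `An β s t` `w = vol`. `L2t η`:
`w` is bounded below by a positive constant on compact sets. For every `κ'` there is `β'` with `∫ q2 (u0 + dF β' - η) w ≤ κ'`; `u = u0 + dF β'` satisfies `Prm F G P u` (`dF (dF β') = 0`, DDZ;
`dF β'` is smooth and alternating, DER) and `∫_K q2 (u - η) vol ≤ C_K κ'`. FRJ gives `ApJ` (weakly coclosed: `∫ ⟨η, dF β'⟩ w = 0` by HPJ). -/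
def SMin : Prop := ∀ (n m : ℕ) (g : E n → Bl n) (Γ : E n → Bm n) (F : Fin n → E n → E n)
  (G : E n → Fin n → Fin n → Fin n → ℝ), IsMet g → IsChr g Γ → Frm g Γ F G →
  ∀ (p : E n) (b β : E n → ℝ) (κ₀ r0 : ℝ), Bus g Γ p b κ₀ r0 → Lvl g b β →
  ∀ P : E n → Tn n (m + 2), Hf g F G P → ∀ u0 : E n → Tn n (m + 1), Prm F G P u0 →
  ∀ s t κ : ℝ, 0 < κ → ∃ (ψ : E n → ℝ) (η : E n → Tn n (m + 1)), ContDiff ℝ ∞ ψ ∧
    (∀ x, 0 ≤ ψ x) ∧ (∀ x ∈ An β s t, ψ x = 0) ∧ Al η ∧ L2t η ∧ ApJ g F G ψ P η ∧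
    (∀ K, IsCompact K → ∀ κ' > 0, ∃ u, Prm F G P u ∧
      ∫ x in K, q2 (u x - η x) * vol g x ≤ κ') ∧
    ∫ x in An β s t, q2 (η x) * vol g x ≤ (∫ x in An β s t, q2 (u0 x) * vol g x) + κ

/-! ## Sup bounds and outer extension -/

/-- SPP (120 lines). Sup bound of harmonic forms. Hypotheses: StMet TNrm TDdz SBal SBgv SGrw SMvp.
PROOF. `D = 14/κ₀`, `ρ = T/64`. Let `T0` be large, `T/4 ≤ β x ≤ 7T`. By GRW (`T/4 ≥ R0`) `dg p x ≥ β x/2 ≥ T/8` and `dg p x ≤ (2/κ₀) β x ≤ D T`. For `y ∈ Ba x ρ`: `dg p y ≥ T/8 - ρ ≥ ρ`, so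
`A/(1 + dg p y ^ 2) ≤ A/ρ²`: `WLo g Γ F (m+1) (Ba g x ρ) (A/ρ²)`. MVP (`dF F G P = 0`: `P = dF F G u` for the primitive `u` of `Hf.prim` and `dF (dF u) = 0`, DDZ):
`q2 (P x) ≤ C₁/vb g x ρ * ∫ q2 P vol`. BGV: `vb g p T ≤ vb g x (T + dg p x) ≤ vb g x ((1+D)T) ≤ (64(1+D))^n vb g x ρ`. -/
def SSpp : Prop := ∀ (n m : ℕ) (g : E n → Bl n) (Γ : E n → Bm n) (F : Fin n → E n → E n)
  (G : E n → Fin n → Fin n → Fin n → ℝ), IsMet g → IsChr g Γ → Frm g Γ F G → Cpl g → Sec g Γ →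
  ∀ (p : E n) (b β : E n → ℝ) (κ₀ r0 : ℝ), Bus g Γ p b κ₀ r0 → Lvl g b β →
  ∀ A : ℝ, 0 ≤ A → WDec g Γ F (m + 1) p A → ∃ C T0 : ℝ, 0 < C ∧ 1 ≤ T0 ∧
  ∀ T, T0 ≤ T → ∀ P : E n → Tn n (m + 2), Hf g F G P → ∀ x, T / 4 ≤ β x → β x ≤ 7 * T →
    q2 (P x) ≤ C / vb g p T * ∫ y, q2 (P y) * vol g y

/-- COL (200 lines). A primitive which is almost minimal on the annulus and has a sup bound on the collar. Hypotheses: StMet StDlc TNrm SBal SBgv SGrw SMve SMin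
SMop.
PROOF. `I = ∫_{An β a T} q2 u0 vol`, `V = vb g p T > 0`. MIN with `s = a`, `t = T`, `κ₁`: `ψ, η`. `K' = {T/2 - 2 ≤ β ≤ 3T/4 + 2}` (compact, GRW), `ρ = T/64`. For `x ∈ K'` and `y ∈ Ba x ρ`:
`|β y - β x| ≤ |b y - b x| + 2 ≤ ρ + 2`, so `a ≤ T/4 ≤ β y ≤ T` for `T ≥ T0`: `ψ = 0` on `Ba x ρ ⊆ An β a T`, and `WLo g Γ F m (Ba g x ρ) (A/ρ²)` as in SPP (`dg p x ≥ β x/2 ≥ T/8`). MVE
(`dlF F G (fun _ => 0) P = 0` is `Hf.cocl`): for almost every `y ∈ Ba x (ρ/2)`: `q2 (η y) ≤ C₁/vb g x ρ * ∫_{Ba x ρ} q2 η vol ≤ (C₂/V) (I + κ₁) =: a₀`, with `V ≤ C vb g x ρ` as in SPP. Let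
`O = ⋃_{x ∈ K'} Ba x (ρ/2)`, open, `K' ⊆ O`; the bound holds almost everywhere on `O` (countable subcover: `TopologicalSpace.isOpen_biUnion_countable`, `ae_restrict_biUnion_iff` or
`ae_restrict` lemmas). MOP with `K = An β a T`, `K'`, `a₀`, `κ₂`: `u` with `∫_K q2 u vol ≤ I + κ₁ + κ₂` and `q2 u ≤ (C₂/V) I + (C₂/V) κ₁ + κ₂` on `K'`. Choose `κ₁, κ₂` small. -/
def SCol : Prop := ∀ (n m : ℕ) (g : E n → Bl n) (Γ : E n → Bm n) (F : Fin n → E n → E n)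
  (G : E n → Fin n → Fin n → Fin n → ℝ), IsMet g → IsChr g Γ → Frm g Γ F G → Cpl g → Sec g Γ →
  ∀ (p : E n) (b β : E n → ℝ) (κ₀ r0 : ℝ), Bus g Γ p b κ₀ r0 → Lvl g b β →
  ∀ A : ℝ, 0 ≤ A → WDec g Γ F m p A → ∃ C T0 : ℝ, 0 < C ∧ 1 ≤ T0 ∧
  ∀ T a : ℝ, T0 ≤ T → a ≤ T / 4 → ∀ P : E n → Tn n (m + 2), Hf g F G P →
  ∀ u0 : E n → Tn n (m + 1), Prm F G P u0 → ∀ κ : ℝ, 0 < κ → ∃ u, Prm F G P u ∧
    ∫ x in An β a T, q2 (u x) * vol g x ≤ (∫ x in An β a T, q2 (u0 x) * vol g x) + κ ∧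
    ∀ x, T / 2 - 2 ≤ β x → β x ≤ 3 * T / 4 + 2 →
      q2 (u x) ≤ C / vb g p T * (∫ x in An β a T, q2 (u0 x) * vol g x) + κ

/-- OEX (220 lines). Outer extension of primitives. Hypotheses: StSm StDlv TNrm SBal SBgv SGrw SGlb SPuc SSpp SCol.
PROOF. `I = ∫_{An β a T} q2 u0 vol`, `J = ∫ q2 P vol`, `V = vb g p T`. `u1` from COL with `κ₁`. `c = κ₀/4`, `ε = κ₀²/(640 (m+2) T)`, `b'` from SM with `e = ε` (constant): `|b' - b| ≤ 1`, so `|b' - β| ≤ 2`; its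
sublevel sets are compact (closed, contained in those of `b`, `Bus.prop`). GLB: `c² ≤ gs g b'` for `T/4 ≤ b' ≤ 6T`. PUC (degree `j = m+1`; `ε * (40 * (j+1) * T) = κ₀²/16 = c²`) with `P`, `u1`,
`U = (C₁/V) I + κ₁` (for `T/2 ≤ b' x ≤ 3T/4`: `T/2 - 2 ≤ β x ≤ 3T/4 + 2`, COL) and `W = (C₂/V) J` (SPP; `T/4 ≤ β x ≤ 7T`): `u` with `u = u1` on `{b' ≤ T/2}` and
`q2 u ≤ C₃ (U + (4T/κ₀)² W)` on `{T/2 ≤ b' ≤ 5T}`. A point `x ∈ An β a (4T)` has `b' x ≤ 5T`; if `b' x ≤ T/2` then `β x ≤ T/2 + 2 ≤ T`, so `x ∈ An β a T` and `u x = u1 x`. So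
`∫_{An β a (4T)} q2 u vol ≤ ∫_{An β a T} q2 u1 vol + C₃ (U + (4T/κ₀)² W) v`, `v` the volume of `{T/2 ≤ b'} ∩ {β ≤ 4T}`; by GRW (`β x ≥ T/2 - 2 ≥ R0` there) it is contained in `Ba g p (D T)`, `D = 8/κ₀ + 1`, so
`v ≤ vb g p (D T) ≤ D^n V` (BGV (2) with `t = 1/D`). So the right side is `≤ I + κ₁ + C₃ D^n (C₁ I + κ₁ V + (16/κ₀²) C₂ T² J)`. Choose `κ₁` small (depending on `T`). -/
def SOex : Prop := ∀ (n m : ℕ) (g : E n → Bl n) (Γ : E n → Bm n) (F : Fin n → E n → E n)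
  (G : E n → Fin n → Fin n → Fin n → ℝ), IsMet g → IsChr g Γ → Frm g Γ F G → Cpl g → Sec g Γ →
  ∀ (p : E n) (b β : E n → ℝ) (κ₀ r0 : ℝ), Bus g Γ p b κ₀ r0 → Lvl g b β →
  ∀ A : ℝ, 0 ≤ A → WDec g Γ F m p A → WDec g Γ F (m + 1) p A → ∃ C T0 : ℝ, 0 < C ∧ 1 ≤ T0 ∧
  ∀ T a : ℝ, T0 ≤ T → a ≤ T / 4 → ∀ P : E n → Tn n (m + 2), Hf g F G P →
  ∀ u0 : E n → Tn n (m + 1), Prm F G P u0 → ∀ κ : ℝ, 0 < κ → ∃ u, Prm F G P u ∧
    ∫ x in An β a (4 * T), q2 (u x) * vol g x ≤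
      C * ((∫ x in An β a T, q2 (u0 x) * vol g x) + T ^ 2 * ∫ x, q2 (P x) * vol g x) + κ

/-! ## The quadratic forms -/

/-- HFL (60 lines). Linear combinations of harmonic forms. Hypotheses: TNrm TDer.
PROOF. DER (linearity of `dF`, `dlF`), the primitive is `∑ c_i u_i`; `q2 (∑ c_i P_i) ≤ (∑ c_i²) ∑ q2 P_i` (NRM (5)) gives integrability (continuous function dominated by an integrable one)
and the estimate. -/
def SHfl : Prop := ∀ (n j : ℕ) (g : E n → Bl n) (Γ : E n → Bm n) (F : Fin n → E n → E n)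
  (G : E n → Fin n → Fin n → Fin n → ℝ), IsMet g → IsChr g Γ → Frm g Γ F G →
  ∀ (M : ℕ) (P : Fin M → E n → Tn n (j + 1)), (∀ i, Hf g F G (P i)) → ∀ c : Fin M → ℝ,
    Hf g F G (fun x => ∑ i, c i • P i x) ∧
    ∫ x, q2 (∑ i, c i • P i x) * vol g x ≤ (∑ i, c i ^ 2) * ∑ i, ∫ x, q2 (P i x) * vol g x

/-- QSX (120 lines). The quadratic forms exist. Hypotheses: StDlv TNrm TDer SGrw SQuf.
PROOF. `An β s t` is compact (GRW). `V` = the subspace of smooth alternating `u : E n → Tn n m` (as a submodule of `E n → Tn n m`), `q u v = ∫_{An} ipt (u x) (v x) vol` (bilinear, symmetric, `≥ 0`: continuous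
functions on a compact set), `D = {u | dF F G u = 0}` (DER: linear), `u_i` a primitive of `P i` (`Hf.prim`). A function `u` is a primitive of `∑ c_i P_i` iff
`u - ∑ c_i u_i ∈ D`. QUF. -/
def SQsx : Prop := ∀ (n m : ℕ) (g : E n → Bl n) (Γ : E n → Bm n) (F : Fin n → E n → E n)
  (G : E n → Fin n → Fin n → Fin n → ℝ), IsMet g → IsChr g Γ → Frm g Γ F G →
  ∀ (p : E n) (b β : E n → ℝ) (κ₀ r0 : ℝ), Bus g Γ p b κ₀ r0 → Lvl g b β →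
  ∀ (M : ℕ) (P : Fin M → E n → Tn n (m + 1)), (∀ i, Hf g F G (P i)) → ∀ s t : ℝ,
    ∃ S : Fin M → Fin M → ℝ, QS g F G β P s t S

/-- LBD (200 lines). Primitives are large. Hypotheses: StDlv StIna TNrm TDer TPaj SGrw SHfl.
PROOF. `f s = 1 - Real.smoothTransition (4 (s - 5/8))`: `1` for `s ≤ 5/8`, `0` for `s ≥ 7/8`, `|f'| ≤ C₀`. `χ x = f (β x/R)`, `Cc χ` (GRW, `R ≥ 1`), `Dχ = 0` outside `An β (R/2) R`,
`|Dχ(v)| ≤ (C₀/R) 2 nr v`, so `∑ a, (Dχ(F_a))² ≤ (2C₀/R)²` (with `w = ∑ a, Dχ(F_a) F_a`: `g(w,w) = Dχ(w) ≤ (2C₀/R) √g(w,w)`). `q = ∑ i, q2 (P i)` is integrable with `vol`, `t(R) = ∫_{β ≥ R/2} q vol → 0` as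
`R → ∞`. Let `∑ c_i² = 1`, `P_c = ∑ c_i P_i`, `q2 P_c ≤ q`. PAJ: `∫ χ q2 P_c vol = - ∫ ⟨P_c, wd (Dχ(F_a) u)⟩ vol ≤ ∫_{An} √(q2 P_c) √(m+1) (2C₀/R) √(q2 u) vol ≤
(C/R) √(t(R)) √(∫_{An} q2 u vol)` (NRM (3), (6), Cauchy-Schwarz), `An = An β (R/2) R`. For `R` large `K ⊆ {β ≤ R/2}`, the left side is `≥ ∫_K q2 P_c vol ≥ δ`. So `δ² R² ≤ C² t(R) ∫_{An} q2 u vol`; take `R1` with
`C² t(R) Λ ≤ δ²` for `R ≥ R1` (`Λ > 0`; if `Λ ≤ 0` there is nothing to prove). -/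
def SLbd : Prop := ∀ (n m : ℕ) (g : E n → Bl n) (Γ : E n → Bm n) (F : Fin n → E n → E n)
  (G : E n → Fin n → Fin n → Fin n → ℝ), IsMet g → IsChr g Γ → Frm g Γ F G →
  ∀ (p : E n) (b β : E n → ℝ) (κ₀ r0 : ℝ), Bus g Γ p b κ₀ r0 → Lvl g b β →
  ∀ (M : ℕ) (P : Fin M → E n → Tn n (m + 1)), (∀ i, Hf g F G (P i)) →
  ∀ (K : Set (E n)) (δ : ℝ), IsCompact K → 0 < δ →
  (∀ c : Fin M → ℝ, ∑ i, c i ^ 2 = 1 → δ ≤ ∫ x in K, q2 (∑ i, c i • P i x) * vol g x) →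
  ∀ Λ : ℝ, ∃ R1 : ℝ, 1 ≤ R1 ∧ ∀ R, R1 ≤ R → ∀ c : Fin M → ℝ, ∑ i, c i ^ 2 = 1 →
  ∀ u : E n → Tn n m, Prm F G (fun x => ∑ i, c i • P i x) u →
    Λ * R ^ 2 ≤ ∫ x in An β (R / 2) R, q2 (u x) * vol g x

/-- CAC (220 lines). Caccioppoli inequality for minimal primitives. Hypotheses: StDlv StIna TNrm TDer TLbz SBol SGrw SMin.
PROOF. `K = An β (R/4) (64R)` (compact). MIN with `s = R/4`, `t = 64R`, `κ₁`: `ψ, η`; `u` from MIN for `K, κ₁`; `v` from `ApJ` for `K, κ₁`. `∫_K q2 (u - v) vol ≤ 4κ₁`,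
`∫_K q2 u vol ≤ (1+r)(∫_K q2 u0 vol + κ₁) + (1+1/r)κ₁` for `r > 0`; choose `r`, then `κ₁`. `f` smooth, `0 ≤ f ≤ 1`, `f = 1` on `[1/2,32]`, `f = 0` outside `[3/8,48]` (product of two smooth transitions),
`|f'| ≤ C₀`, `χ x = f (β x/R)`: `Cc χ`, `∑ a, (Dχ(F_a))² ≤ (2C₀/R)²` (as in LBD). `tsupport χ` is contained in the open set `{R/4 < β < 64R}`, where `ψ = 0`, so `Dψ = 0` and `dlF F G ψ v = dlF F G 0 v`.
BOL for `χ • v`: `∫ NF (χv) vol = ∫ (q2 (d(χv)) + q2 (δ(χv)) - Wz(χv)) vol`. `- Wz(χv) ≤ (64A/R²) χ² q2 v` (`WDec`; `dg p x ≥ β x/2 ≥ R/8` on `K` by GRW). LBZ (2), (3), NRM: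
`q2 (d(χv)) ≤ 2χ² q2 (dv) + 2(m+2)(2C₀/R)² q2 v`, `q2 (dv) ≤ 2 q2 P + 2 q2 (dv - P)`, `q2 (δ(χv)) ≤ 2χ² q2 (δv) + 2(m+1)(2C₀/R)² q2 v`. On `An β (R/2) (32R)`: `χ = 1` is maximal, so `Dχ = 0` and
`NF (χv) = NF v`. So `∫_{An β (R/2) (32R)} NF v vol ≤ (C/R²) ∫_K q2 v vol + 4 ∫ q2 P vol + 6κ₁` and `∫_K q2 v vol ≤ 2 ∫_K q2 η vol + 2κ₁`. -/
def SCac : Prop := ∀ (n m : ℕ) (g : E n → Bl n) (Γ : E n → Bm n) (F : Fin n → E n → E n)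
  (G : E n → Fin n → Fin n → Fin n → ℝ), IsMet g → IsChr g Γ → Frm g Γ F G →
  ∀ (p : E n) (b β : E n → ℝ) (κ₀ r0 : ℝ), Bus g Γ p b κ₀ r0 → Lvl g b β →
  ∀ A : ℝ, 0 ≤ A → WDec g Γ F m p A → ∃ C R0 : ℝ, 0 < C ∧ 1 ≤ R0 ∧
  ∀ R, R0 ≤ R → ∀ P : E n → Tn n (m + 2), Hf g F G P → ∀ u0 : E n → Tn n (m + 1),
  Prm F G P u0 → ∀ κ : ℝ, 0 < κ → ∃ u v : E n → Tn n (m + 1), Prm F G P u ∧
    ContDiff ℝ ∞ v ∧ Al v ∧
    ∫ x in An β (R / 4) (64 * R), q2 (u x) * vol g x ≤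
      (∫ x in An β (R / 4) (64 * R), q2 (u0 x) * vol g x) + κ ∧
    ∫ x in An β (R / 2) (32 * R), q2 (u x - v x) * vol g x ≤ κ ∧
    ∫ x in An β (R / 2) (32 * R), NF F G v x * vol g x ≤
      C / R ^ 2 * (∫ x in An β (R / 4) (64 * R), q2 (u0 x) * vol g x) +
        C * (∫ x, q2 (P x) * vol g x) + κ

/-- RNK (180 lines). Rank argument on the annulus. Hypotheses: StMet StDlv TNrm TDer SBal SGrw SCov SRkb.
PROOF. COV for `δ`: `L`, and for `R ≥ R0` the set `Z`. RKB for every `z ∈ Z`, `ρ = δR`, the family `v`: points `x_z`. `N = L * n^j`; `L c` has the components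
`(∑ i, c i • v i (x_z)) I`, `z ∈ Z`, `I : Fin j → Fin n` (at most `N` numbers, fill up with zeros). Let `f` be orthonormal with `L (f a) = 0`; so `∑ i, f a i • v i (x_z) = 0` for all `z`, and RKB:
`∑ a, ∫_{Ba z (δR)} q2 (∑ i, f a i • v i) vol ≤ 4δ²R² 2^n ∫_{Ba z (3δR)} h vol`, `h = ∑ i, NF F G (v i)`. Sum over `z ∈ Z`: `An β R (16R) ⊆ ⋃ Ba z (δR)`; every `y` belongs to at most `14^n` of the balls `Ba z (3δR)`, and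
these are contained in `An β (R/2) (32R)` (`|β y - β z| ≤ |b y - b z| + 2 ≤ 3δR + 2 ≤ R/2`). `C₀ = 4 * 28^n`. (`h ≥ 0` is continuous, balls are open and bounded.) -/
def SRnk : Prop := ∀ (n j : ℕ) (g : E n → Bl n) (Γ : E n → Bm n) (F : Fin n → E n → E n)
  (G : E n → Fin n → Fin n → Fin n → ℝ), IsMet g → IsChr g Γ → Frm g Γ F G → Cpl g → Sec g Γ →
  ∀ (p : E n) (b β : E n → ℝ) (κ₀ r0 : ℝ), Bus g Γ p b κ₀ r0 → Lvl g b β →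
  ∀ δ : ℝ, 0 < δ → δ ≤ 1 / 16 → ∃ (N : ℕ) (R0 : ℝ), 1 ≤ R0 ∧ ∀ R, R0 ≤ R →
  ∀ (M : ℕ) (v : Fin M → E n → Tn n j), (∀ i, ContDiff ℝ ∞ (v i)) →
  ∃ L : (Fin M → ℝ) →ₗ[ℝ] (Fin N → ℝ), ∀ (M' : ℕ) (f : Fin M' → Fin M → ℝ), Ort f →
  (∀ a, L (f a) = 0) →
    ∑ a, ∫ x in An β R (16 * R), q2 (∑ i, f a i • v i x) * vol g x ≤
      4 * 28 ^ n * δ ^ 2 * R ^ 2 *
        ∫ x in An β (R / 2) (32 * R), (∑ i, NF F G (v i) x) * vol g x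

end Helper58.QD
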